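import Pool.Agent.H114.X21.Bsd
import Pool.Graph.R_pool_sql_team_seeded_63374d34.N187.SLX.Cnt

/-!
# X21: the criterion and the class group of `ℚ(√m)`
-/

set_option autoImplicit false
set_option linter.all false

namespace Pool.Agent.H114.X21

open Pool.Agent.Y755.FK (Rn S_AMB1 S_AMB S_SQ S_LEG)
open Pool.Agent.Y473.FK.Alg (Rep)
open Pool.Agent.N187.SLX (Cd cd_iff1 rep_iff)
open Pool.Agent.N969.P15 (Qc Qe)
open NumberField

theorem rep_one (k : ℕ) : Rep k 1 := ⟨1, 0, by push_cast; ring⟩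

theorem rep_self (k : ℕ) : Rep k k := ⟨0, 1, by push_cast; ring⟩

theorem self_dvd_Rn (k : ℕ) : k ∣ Rn k := by
  unfold Rn
  split_ifs
  · exact ⟨2, by ring⟩
  · exact dvd_rfl

/-- only the trivial norms -/
def Triv (k : ℕ) : Prop := ∀ d : ℕ, d ∣ Rn k → Rep k d → d = 1 ∨ d = k

theorem qc_triv {k : ℕ} (hs : Squarefree k) (h4 : k % 4 = 3) : Qc k ↔ Triv k := by
  have hR : Rn k = k := by unfold Rn; rw [if_neg (by omega)]
  have hp2 : ∀ p : ℕ, p ∣ k → p ≠ 2 := by
    rintro p hp rfl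
    omega
  have hk0 : k ≠ 0 := by omega
  constructor
  · intro h d hd hr
    rw [rep_iff hs hd] at hr
    rw [hR] at hd
    obtain ⟨c, hc⟩ := hd
    have hc0 : c ≠ 0 := by rintro rfl; omega
    have hd0 : d ≠ 0 := by rintro rfl; omega
    obtain ⟨h1, h2⟩ := (cd_iff1 hs hc.symm).1 hr
    rcases h d c hc.symm (fun p hp => by
      have hpp := Nat.prime_of_mem_primeFactors hp
      have hpd := Nat.dvd_of_mem_primeFactors hp
      exact h1 p hpp (hp2 p (hpd.trans ⟨d, by rw [hc, mul_comm]⟩)) hpd) (fun p hp => by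
      have hpp := Nat.prime_of_mem_primeFactors hp
      have hpd := Nat.dvd_of_mem_primeFactors hp
      exact h2 p hpp (hp2 p (hpd.trans ⟨c, hc⟩)) hpd) with h3 | h3
    · exact Or.inl h3
    · right
      rw [hc, h3, mul_one]
  · intro h b c hbc h1 h2
    have hb : b ∣ Rn k := by rw [hR]; exact ⟨c, hbc.symm⟩
    have hc0 : c ≠ 0 := by rintro rfl; omega
    have hb0 : b ≠ 0 := by rintro rfl; omega
    have hr : Rep k b := (rep_iff hs hb).2 ((cd_iff1 hs hbc).2
      ⟨fun p hp _ hpc => h1 p (Nat.mem_primeFactors.2 ⟨hp, hpc, hc0⟩),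
        fun p hp _ hpb => h2 p (Nat.mem_primeFactors.2 ⟨hp, hpb, hb0⟩)⟩)
    rcases h b hb hr with h3 | h3
    · exact Or.inl h3
    · right
      rw [h3] at hbc
      exact Nat.eq_of_mul_eq_mul_left (Nat.pos_of_ne_zero hk0) (by rw [hbc, mul_one])

theorem qe_triv {k : ℕ} (hs : Squarefree k) (h4 : k % 4 = 1 ∨ k % 4 = 2) : Qe (4 * k) ↔ Triv k := by
  have hk0 : k ≠ 0 := by omega
  have e4 : 4 * k / 4 = k := by omega
  have hdR : ∀ d : ℕ, (Squarefree d ∧ ∀ p ∈ d.primeFactors, p ∣ 4 * k) ↔ d ∣ Rn k := by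
    intro d
    have hRs : Squarefree (Rn k) := by
      unfold Rn
      split_ifs with h
      · rw [Nat.squarefree_mul_iff]
        refine ⟨?_, Nat.squarefree_two, hs⟩
        rw [Nat.coprime_two_left, Nat.odd_iff]
        omega
      · exact hs
    have hR0 : Rn k ≠ 0 := hRs.ne_zero
    constructor
    · rintro ⟨h1, h2⟩
      rw [← Nat.prod_primeFactors_of_squarefree h1, ← Nat.prod_primeFactors_of_squarefree hRs]
      refine Finset.prod_dvd_prod_of_subset _ _ _ fun p hp => ?_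
      have hpp := Nat.prime_of_mem_primeFactors hp
      have h3 := h2 p hp
      refine Nat.mem_primeFactors.2 ⟨hpp, ?_, hR0⟩
      have h5 : p = 2 ∨ p ∣ k := by
        rcases hpp.dvd_mul.1 h3 with h | h
        · left
          have : p ∣ 2 ^ 2 := by simpa using h
          exact (Nat.prime_dvd_prime_iff_eq hpp Nat.prime_two).1 (hpp.dvd_of_dvd_pow this)
        · exact Or.inr h
      rcases h5 with rfl | h5
      · unfold Rn
        split_ifs <;> omega
      · exact h5.trans (self_dvd_Rn k)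
    · intro h
      refine ⟨hRs.squarefree_of_dvd h, fun p hp => ?_⟩
      have hpR := (Nat.dvd_of_mem_primeFactors hp).trans h
      refine hpR.trans ?_
      unfold Rn
      split_ifs
      · exact ⟨2, by ring⟩
      · exact ⟨4, by ring⟩
  have hcond : ∀ d : ℕ, (∀ p ∈ (4 * k).primeFactors, p ≠ 2 →
      (if p ∣ d then jacobiSym ((d / p * (4 * k / 4 / p) : ℕ) : ℤ) p else jacobiSym d p) = 1) ↔
      Cd k d := by
    intro d
    rw [e4]
    unfold Pool.Agent.N187.SLX.Cd
    constructor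
    · intro h p hp hp2 hpk
      exact h p (Nat.mem_primeFactors.2 ⟨hp, hpk.trans ⟨4, by ring⟩, by omega⟩) hp2
    · intro h p hp hp2
      have hpp := Nat.prime_of_mem_primeFactors hp
      have hpd := Nat.dvd_of_mem_primeFactors hp
      refine h p hpp hp2 ?_
      rcases hpp.dvd_mul.1 hpd with h3 | h3
      · exfalso
        have : p ∣ 2 ^ 2 := by simpa using h3
        exact hp2 ((Nat.prime_dvd_prime_iff_eq hpp Nat.prime_two).1 (hpp.dvd_of_dvd_pow this))
      · exact h3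
  constructor
  · intro h d hd hr
    obtain ⟨h1, h2⟩ := (hdR d).2 hd
    have h3 := h d h1 h2 ((hcond d).2 ((rep_iff hs hd).1 hr))
    rwa [e4] at h3
  · intro h d h1 h2 h3
    rw [e4]
    have hd := (hdR d).1 ⟨h1, h2⟩
    exact h d hd ((rep_iff hs hd).2 ((hcond d).1 h3))

theorem triv_card {k : ℕ} (hs : Squarefree k) (h1 : k ≠ 1) [DecidablePred (Rep k)] :
    Triv k ↔ ((Rn k).divisors.filter (Rep k)).card = 2 := by
  have hR0 : Rn k ≠ 0 := by
    have := hs.ne_zero
    unfold Rn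
    split_ifs <;> omega
  have hsub : ({1, k} : Finset ℕ) ⊆ (Rn k).divisors.filter (Rep k) := by
    intro d hd
    rw [Finset.mem_insert, Finset.mem_singleton] at hd
    rw [Finset.mem_filter, Nat.mem_divisors]
    rcases hd with rfl | rfl
    · exact ⟨⟨one_dvd _, hR0⟩, rep_one k⟩
    · exact ⟨⟨self_dvd_Rn _, hR0⟩, rep_self _⟩
  have hc2 : ({1, k} : Finset ℕ).card = 2 := Finset.card_pair (Ne.symm h1)
  constructor
  · intro h
    rw [← hc2]
    congr 1
    refine Finset.Subset.antisymm (fun d hd => ?_) hsub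
    rw [Finset.mem_filter, Nat.mem_divisors] at hd
    rw [Finset.mem_insert, Finset.mem_singleton]
    exact h d hd.1.1 hd.2
  · intro h d hd hr
    have heq := Finset.eq_of_subset_of_card_le hsub (by rw [h, hc2])
    have hmem : d ∈ (Rn k).divisors.filter (Rep k) := by
      rw [Finset.mem_filter, Nat.mem_divisors]
      exact ⟨⟨hd, hR0⟩, hr⟩
    rw [← heq, Finset.mem_insert, Finset.mem_singleton] at hmem
    exact hmem

/-- **the criterion in terms of the class group**: no ideal class of order four -/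
theorem gm_cl {m : ℤ} (hneg : m < 0) (hs : Squarefree m) (h1 : m ≠ -1)
    (K : Type) [Field K] [NumberField K] (h2 : Module.finrank ℚ K = 2)
    (hK : ∃ s : K, s ^ 2 = (m : K)) :
    Gm m ↔ ∀ c : ClassGroup (𝓞 K), c ^ 4 = 1 → c ^ 2 = 1 := by
  classical
  have hsn : Squarefree m.natAbs := Int.squarefree_natAbs.2 hs
  have hm : m = -((m.natAbs : ℕ) : ℤ) := by omega
  have hk1 : m.natAbs ≠ 1 := by omega
  have hs' : ∃ s : K, s ^ 2 = -((m.natAbs : ℕ) : K) := by
    obtain ⟨s, hs⟩ := hK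
    refine ⟨s, ?_⟩
    have h6 : (m : K) = (((-((m.natAbs : ℕ) : ℤ)) : ℤ) : K) := congrArg Int.cast hm
    rw [hs, h6, Int.cast_neg, Int.cast_natCast]
  have hA1 : S_AMB1 := Pool.Agent.Y486.FK.t_AMB1
  have hA : S_AMB := Pool.Agent.Y688.FK.t_AMB2 hA1
  have hS : S_SQ := Pool.Agent.Y629.FK.t_SQ
  have hc := Pool.Agent.Y473.FK.Alg.count K hA1 hA hS h2 m.natAbs hsn hs'
  have hc' : ((Rn m.natAbs).divisors.filter (Rep m.natAbs)).card =
      2 * Nat.card {y : ClassGroup (𝓞 K) // ∃ x : ClassGroup (𝓞 K), x ^ 4 = 1 ∧ x ^ 2 = y} := by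
    rw [← hc]
  have hG : Gm m ↔ Triv m.natAbs := by
    unfold Gm
    have h5 : m % 4 ≠ 0 := by
      intro h0
      have h6 : (2 : ℤ) * 2 ∣ m := by omega
      have := hs 2 h6
      rw [Int.isUnit_iff] at this
      omega
    by_cases h4 : m % 4 = 1
    · rw [← qc_triv hsn (by omega)]
      exact ⟨fun h => h.1 h4, fun h => ⟨fun _ => h, fun h' => absurd h4 h'⟩⟩
    · rw [← qe_triv hsn (by omega)]
      exact ⟨fun h => h.2 h4, fun h => ⟨fun h' => absurd h' h4, fun _ => h⟩⟩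
  rw [hG, triv_card hsn hk1, hc']
  have e : (2 * Nat.card {y : ClassGroup (𝓞 K) // ∃ x : ClassGroup (𝓞 K), x ^ 4 = 1 ∧
      x ^ 2 = y} = 2) ↔ Nat.card {y : ClassGroup (𝓞 K) // ∃ x : ClassGroup (𝓞 K), x ^ 4 = 1 ∧
      x ^ 2 = y} = 1 := by omega
  rw [e]
  constructor
  · intro h c hc4
    rw [Nat.card_eq_one_iff_unique] at h
    obtain ⟨h, -⟩ := h
    have := h.elim ⟨c ^ 2, c, hc4, rfl⟩ ⟨1, 1, one_pow 4, one_pow 2⟩
    exact congrArg Subtype.val this
  · intro h
    rw [Nat.card_eq_one_iff_unique]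
    refine ⟨⟨?_⟩, ⟨⟨1, 1, one_pow 4, one_pow 2⟩⟩⟩
    rintro ⟨y, x, hx4, hx2⟩ ⟨y', x', hx4', hx2'⟩
    apply Subtype.ext
    show y = y'
    rw [← hx2, ← hx2', h x hx4, h x' hx4']

end Pool.Agent.H114.X21
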