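import Pool.Agent.H114.X21.Defs
import Pool.Graph.R_pool_sql_team_seeded_63374d34.N916.AM.Fd

/-!
# X21: the natural density of the criterion in the classes of negative squarefree integers given by
congruences
-/

set_option autoImplicit false
set_option linter.all false

open scoped Classical

namespace Pool.Agent.H114.X21

open Finset Filter
open Pool.Agent.N969.P15 (Qc Qe Ev)
open Pool.Agent.N916.GB (eta)
open Pool.Agent.N916.TE (FD Go)
open Pool.Agent.N916.AM (count_mod low ratio)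

/-- a condition on integers which depends only on the residue modulo `L` -/
def Per (L : ℕ) (C : ℤ → Prop) : Prop := ∀ x y : ℤ, (L : ℤ) ∣ x - y → (C x ↔ C y)

/-- residues of the odd discriminants -/
noncomputable def Ro (L : ℕ) (C : ℤ → Prop) : Finset ℕ :=
  (range (4 * L)).filter fun r => r % 4 = 3 ∧ C (-(r : ℤ))

/-- residues of the even discriminants -/
noncomputable def Re (L : ℕ) (C : ℤ → Prop) : Finset ℕ :=
  (range (4 * L)).filter fun r => r % 4 = 0 ∧ C (-((r / 4 : ℕ) : ℤ))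

section

variable {L : ℕ} (hL : 0 < L) {C : ℤ → Prop} (hC : Per L C)

include hL hC

theorem mem_Ro (k : ℕ) : k % (4 * L) ∈ Ro L C ↔ k % 4 = 3 ∧ C (-(k : ℤ)) := by
  unfold Ro
  rw [mem_filter, mem_range]
  have h0 : k % (4 * L) % 4 = k % 4 := Nat.mod_mod_of_dvd k ⟨L, rfl⟩
  have h1 : C (-((k % (4 * L) : ℕ) : ℤ)) ↔ C (-(k : ℤ)) := by
    apply hC
    refine ⟨4 * (k / (4 * L) : ℕ), ?_⟩
    have h3 := Nat.div_add_mod k (4 * L)
    have h2 : (k : ℤ) = (4 * L) * (k / (4 * L) : ℕ) + (k % (4 * L) : ℕ) := by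
      exact_mod_cast h3.symm
    linear_combination h2
  rw [h0, h1]
  exact ⟨fun h => h.2, fun h => ⟨Nat.mod_lt _ (by omega), h⟩⟩

theorem mem_Re (k : ℕ) : (4 * k) % (4 * L) ∈ Re L C ↔ C (-(k : ℤ)) := by
  unfold Re
  rw [mem_filter, mem_range, Nat.mul_mod_mul_left]
  have h0 : 4 * (k % L) / 4 = k % L := by omega
  have h1 : C (-((k % L : ℕ) : ℤ)) ↔ C (-(k : ℤ)) := by
    apply hC
    refine ⟨(k / L : ℕ), ?_⟩
    have h3 := Nat.div_add_mod k L
    have h2 : (k : ℤ) = L * (k / L : ℕ) + (k % L : ℕ) := by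
      exact_mod_cast h3.symm
    linear_combination h2
  rw [h0, h1]
  constructor
  · exact fun h => h.2.2
  · intro h
    have := Nat.mod_lt k hL
    exact ⟨by omega, by omega, h⟩

theorem Re_four {n : ℕ} (h : n % (4 * L) ∈ Re L C) : n % 4 = 0 := by
  unfold Re at h
  rw [mem_filter] at h
  have h0 : n % (4 * L) % 4 = n % 4 := Nat.mod_mod_of_dvd n ⟨L, rfl⟩
  omega

/-- the two kinds of discriminants -/
theorem split_card (Q : ℕ → Prop) (X : ℕ) :
    ((Icc 1 X).filter fun k : ℕ => Squarefree k ∧ C (-(k : ℤ)) ∧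
      Q (if k % 4 = 3 then k else 4 * k)).card =
    ((Icc 1 X).filter fun n => FD n ∧ n % (4 * L) ∈ Ro L C ∧ Q n).card +
    ((Icc 1 (4 * X)).filter fun n => FD n ∧ n % (4 * L) ∈ Re L C ∧ Q n).card := by
  rw [← card_filter_add_card_filter_not (s := (Icc 1 X).filter fun k : ℕ => Squarefree k ∧
    C (-(k : ℤ)) ∧ Q (if k % 4 = 3 then k else 4 * k)) (p := fun k : ℕ => k % 4 = 3)]
  congr 1
  · congr 1
    ext k
    simp only [mem_filter]
    rw [mem_Ro hL hC]
    constructor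
    · rintro ⟨⟨h1, h2, h3, h4⟩, h5⟩
      rw [if_pos h5] at h4
      exact ⟨h1, Or.inl ⟨h2, h5⟩, ⟨h5, h3⟩, h4⟩
    · rintro ⟨h1, h2, ⟨h5, h3⟩, h4⟩
      rw [if_pos h5]
      refine ⟨⟨h1, ?_, h3, h4⟩, h5⟩
      rcases h2 with h2 | ⟨m, rfl, h6, h7⟩
      · exact h2.1
      · omega
  · refine card_bij (fun k _ => 4 * k) ?_ ?_ ?_
    · intro k hk
      simp only [mem_filter, mem_Icc] at hk ⊢
      obtain ⟨⟨h1, h2, h3, h4⟩, h5⟩ := hk
      rw [if_neg h5] at h4
      have h0 : k % 4 ≠ 0 := by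
        intro h0
        have h6 : 2 * 2 ∣ k := Nat.dvd_of_mod_eq_zero h0
        have := h2 2 h6
        rw [Nat.isUnit_iff] at this
        omega
      exact ⟨by omega, Or.inr ⟨k, rfl, h2, by omega⟩, (mem_Re hL hC k).2 h3, h4⟩
    · intro a _ b _ h
      omega
    · intro n hn
      simp only [mem_filter, mem_Icc] at hn
      obtain ⟨h1, h2, h3, h4⟩ := hn
      have h5 := Re_four hL hC h3
      rcases h2 with h2 | ⟨m, rfl, h6, h7⟩
      · omega
      · refine ⟨m, ?_, rfl⟩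
        simp only [mem_filter, mem_Icc]
        refine ⟨⟨by omega, h6, (mem_Re hL hC m).1 h3, ?_⟩, by omega⟩
        rw [if_neg (by omega)]
        exact h4

end

theorem gm_go {k : ℕ} (hs : Squarefree k) : Gm (-(k : ℤ)) ↔ Go (if k % 4 = 3 then k else 4 * k) := by
  unfold Gm Pool.Agent.N916.TE.Go
  rw [Int.natAbs_neg, Int.natAbs_natCast]
  by_cases h : k % 4 = 3
  · rw [if_pos h]
    constructor
    · intro h1
      exact ⟨fun _ => h1.1 (by omega), fun h2 => by omega⟩
    · intro h1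
      exact ⟨fun _ => h1.1 (by omega), fun h2 => absurd (by omega) h2⟩
  · rw [if_neg h]
    constructor
    · intro h1
      exact ⟨fun h2 => by omega, fun _ => h1.2 (by omega)⟩
    · intro h1
      exact ⟨fun h2 => absurd (by omega) h, fun _ => h1.2 (by omega)⟩

/-- counting negative integers by the absolute value -/
theorem neg_card (P : ℤ → Prop) (X : ℕ) {_ : DecidablePred fun m : ℤ => m < 0 ∧ P m} :
    ((Icc (-(X : ℤ)) X).filter fun m => m < 0 ∧ P m).card =
    ((Icc 1 X).filter fun k : ℕ => P (-(k : ℤ))).card := by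
  symm
  refine card_bij (fun k _ => -(k : ℤ)) ?_ ?_ ?_
  · intro k hk
    simp only [mem_filter, mem_Icc] at hk ⊢
    exact ⟨by omega, by omega, hk.2⟩
  · intro a _ b _ h
    simpa using h
  · intro m hm
    simp only [mem_filter, mem_Icc] at hm
    refine ⟨m.natAbs, ?_, ?_⟩
    · simp only [mem_filter, mem_Icc]
      refine ⟨by omega, ?_⟩
      have : -((m.natAbs : ℕ) : ℤ) = m := by omega
      rw [this]
      exact hm.2.2
    · show -((m.natAbs : ℕ) : ℤ) = m
      omega

/-- **the natural density** -/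
theorem dens {L : ℕ} (hL : 0 < L) {C : ℤ → Prop} (hC : Per L C) {m₀ : ℤ} (h0 : m₀ < 0)
    (hs : Squarefree m₀) (hc : C m₀) : Tendsto (fun X : ℕ =>
      (((Icc (-(X : ℤ)) X).filter fun m => m < 0 ∧ Squarefree m ∧ C m ∧ Gm m).card : ℝ) /
      (((Icc (-(X : ℤ)) X).filter fun m => m < 0 ∧ Squarefree m ∧ C m).card : ℝ))
      atTop (nhds eta) := by
  have hA : ∀ X : ℕ, ((Icc (-(X : ℤ)) X).filter fun m => m < 0 ∧ Squarefree m ∧ C m ∧ Gm m).card =
      ((Icc 1 X).filter fun n => FD n ∧ n % (4 * L) ∈ Ro L C ∧ Go n).card +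
      ((Icc 1 (4 * X)).filter fun n => FD n ∧ n % (4 * L) ∈ Re L C ∧ Go n).card := by
    intro X
    refine (neg_card (fun m => Squarefree m ∧ C m ∧ Gm m) X).trans ?_
    rw [← split_card hL hC Go X]
    congr 1
    ext k
    simp only [mem_filter]
    rw [← Int.squarefree_natAbs, Int.natAbs_neg, Int.natAbs_natCast]
    constructor
    · rintro ⟨h0, h1, h2, h3⟩
      exact ⟨h0, h1, h2, (gm_go h1).1 h3⟩
    · rintro ⟨h0, h1, h2, h3⟩
      exact ⟨h0, h1, h2, (gm_go h1).2 h3⟩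
  have hB : ∀ X : ℕ, ((Icc (-(X : ℤ)) X).filter fun m => m < 0 ∧ Squarefree m ∧ C m).card =
      ((Icc 1 X).filter fun n => FD n ∧ n % (4 * L) ∈ Ro L C).card +
      ((Icc 1 (4 * X)).filter fun n => FD n ∧ n % (4 * L) ∈ Re L C).card := by
    intro X
    have h := split_card hL hC (fun _ => True) X
    simp only [and_true] at h
    refine (neg_card (fun m => Squarefree m ∧ C m) X).trans ?_
    rw [← h]
    congr 1
    ext k
    simp only [mem_filter]
    rw [← Int.squarefree_natAbs, Int.natAbs_neg, Int.natAbs_natCast]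
  have hsn : Squarefree m₀.natAbs := Int.squarefree_natAbs.2 hs
  obtain ⟨c₁, X₁, hc₁, hlow⟩ := low (M := 4 * L) (by omega) ⟨2 * L, by ring⟩ hsn
  refine ratio hc₁ (fun X hX => (hlow X hX).trans ?_) ?_ (X₁ := X₁)
  · refine le_of_le_of_eq ?_ (congrArg Nat.cast (neg_card (fun m => Squarefree m ∧ C m) X).symm)
    refine Nat.cast_le.2 (card_le_card fun k hk => ?_)
    simp only [mem_filter] at hk ⊢
    refine ⟨hk.1, ?_, ?_⟩
    · rw [← Int.squarefree_natAbs, Int.natAbs_neg, Int.natAbs_natCast]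
      exact hk.2.1
    · refine (hC _ _ ?_).1 hc
      have h1 : ((4 * L : ℕ) : ℤ) ∣ (k : ℤ) - (m₀.natAbs : ℕ) := by
        have := (Nat.modEq_iff_dvd (n := 4 * L) (a := m₀.natAbs) (b := k)).1 hk.2.2.symm
        exact this
      have h2 : (L : ℤ) ∣ (k : ℤ) - (m₀.natAbs : ℕ) := by
        refine Dvd.dvd.trans ⟨4, ?_⟩ h1
        push_cast
        ring
      have h3 : m₀ - -(k : ℤ) = (k : ℤ) - (m₀.natAbs : ℕ) := by omega
      rw [h3]
      exact h2
  · intro ε hε
    obtain ⟨X2, h2⟩ := count_mod (m := 4 * L) (by omega) (Ro L C) (ε / 2) (by positivity)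
    obtain ⟨X3, h3⟩ := count_mod (m := 4 * L) (by omega) (Re L C) (ε / 8) (by positivity)
    refine ⟨X2 + X3, fun X hX => ?_⟩
    have a2 := h2 X (by omega)
    have a3 := h3 (4 * X) (by omega)
    rw [hA X, hB X]
    push_cast at a2 a3 ⊢
    rw [abs_le] at a2 a3 ⊢
    constructor
    · linarith [a2.1, a3.1]
    · linarith [a2.2, a3.2]

end Pool.Agent.H114.X21
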