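import Pool.Agent.H114.X21.Defs
import Pool.Graph.R_seed8.Y700.Defs
import Pool.Graph.R_pool_sql_team_seeded_63374d34.N974.Gen.Models

/-!
# The quadratic twists `E_m : y² = x (x + 9 m) (x + 16 m)` of `X_0(21)`: statements of the parts

The final theorem (2-part of the formula of Birch and Swinnerton-Dyer for the twists of `X_0(21)` by
the negative fundamental discriminants for which `3` is not split and `7` is not inert, with the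
exact natural density) is assembled from these parts.  Each `S_X` is to be proved as
`theorem t_X : S_X`.
-/

set_option autoImplicit false

open scoped Classical

namespace Pool.Agent.H114.X21

open Pool.Agent.H743.X17 (EAB LS up lam ind h2)

/-! ### the local conditions (`A = 9 m`, `B = 16 m`): necessary -/

/-- NECINF -/
def S_NECINF : Prop := ∀ m u v : ℤ, m < 0 → u ≠ 0 → v ≠ 0 → LS (9 * m) (16 * m) u v ℝ → 0 < u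

/-- NECGOOD -/
def S_NECGOOD : Prop := ∀ (p : ℕ) [Fact p.Prime] (m u v : ℤ), p ≠ 2 → p ≠ 3 → p ≠ 7 →
  ¬ (p : ℤ) ∣ m → Squarefree u → Squarefree v → LS (9 * m) (16 * m) u v ℚ_[p] →
  ¬ (p : ℤ) ∣ u ∧ ¬ (p : ℤ) ∣ v

/-- NECODD -/
def S_NECODD : Prop := ∀ (p : ℕ) [Fact p.Prime] (m u v : ℤ), p ≠ 2 → p ≠ 3 → p ≠ 7 → (p : ℤ) ∣ m →
  Squarefree m → Squarefree u → Squarefree v → LS (9 * m) (16 * m) u v ℚ_[p] →
  lam p u = ind p u * lam p (-m) ∧ lam p v = ind p v * lam p m + ind p u * lam p (-7)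

/-- NEC3 -/
def S_NEC3 : Prop := ∀ [Fact (Nat.Prime 3)] (m u v : ℤ), m % 3 = 2 →
  Squarefree u → Squarefree v → LS (9 * m) (16 * m) u v ℚ_[3] → ¬ (3 : ℤ) ∣ u ∧ ¬ (3 : ℤ) ∣ v

/-- NECR3 -/
def S_NECR3 : Prop := ∀ [Fact (Nat.Prime 3)] (m u v : ℤ), (3 : ℤ) ∣ m →
  Squarefree m → Squarefree u → Squarefree v → LS (9 * m) (16 * m) u v ℚ_[3] →
  lam 3 u = ind 3 u * lam 3 (-m) ∧ lam 3 v = ind 3 v * lam 3 m + ind 3 u * lam 3 (-7)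

/-- NEC7 -/
def S_NEC7 : Prop := ∀ [Fact (Nat.Prime 7)] (m u v : ℤ), (m % 7 = 1 ∨ m % 7 = 2 ∨ m % 7 = 4) →
  Squarefree u → Squarefree v → LS (9 * m) (16 * m) u v ℚ_[7] → ¬ (7 : ℤ) ∣ u ∧ ind 7 v = lam 7 u

/-- NECR7 -/
def S_NECR7 : Prop := ∀ [Fact (Nat.Prime 7)] (m u v : ℤ), (7 : ℤ) ∣ m →
  Squarefree m → Squarefree u → Squarefree v → LS (9 * m) (16 * m) u v ℚ_[7] →
  lam 7 u = ind 7 u * lam 7 (-m) ∧ lam 7 v = (ind 7 u + ind 7 v) * lam 7 m + ind 7 u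

/-- NEC2O -/
def S_NEC2O : Prop := ∀ [Fact (Nat.Prime 2)] (m u v : ℤ), m % 4 = 1 →
  Squarefree u → Squarefree v → LS (9 * m) (16 * m) u v ℚ_[2] → ¬ (2 : ℤ) ∣ u ∧ v % 4 = 1

/-- NEC2E -/
def S_NEC2E : Prop := ∀ [Fact (Nat.Prime 2)] (m u v : ℤ), (m % 4 = 2 ∨ m % 4 = 3) →
  Squarefree m → Squarefree u → Squarefree v → LS (9 * m) (16 * m) u v ℚ_[2] →
  ((up 2 v % 8 = 1 ∧ ¬ (2 : ℤ) ∣ v) ∨
    (((2 : ℤ) ∣ v ↔ (2 : ℤ) ∣ m) ∧ (up 2 v * up 2 m) % 8 = 1)) ∧ h2 u m = 0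

/-! ### the local conditions for `u = 1`: sufficient -/

/-- SUF1GOOD -/
def S_SUF1GOOD : Prop := ∀ (p : ℕ) [Fact p.Prime] (m v : ℤ), p ≠ 2 → p ≠ 3 → p ≠ 7 →
  ¬ (p : ℤ) ∣ m → ¬ (p : ℤ) ∣ v → LS (9 * m) (16 * m) 1 v ℚ_[p]

/-- SUF1BAD -/
def S_SUF1BAD : Prop := ∀ (p : ℕ) [Fact p.Prime] (m v : ℤ), K21 m → Squarefree v → VD m v →
  (p = 2 ∨ p = 3 ∨ p = 7 ∨ (p : ℤ) ∣ m) → LS (9 * m) (16 * m) 1 v ℚ_[p]

/-! ### the global conditions -/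

/-- US -/
def S_US : Prop := ∀ m : ℤ, K21 m → Gm m → ∀ u v : ℤ, Squarefree u → Squarefree v → LC m u v →
  u = 1 ∨ u = -m

/-- VF -/
def S_VF : Prop := ∀ m : ℤ, m < 0 → Squarefree m → Gm m → ∀ v : ℤ, Squarefree v → VD m v →
  v = 1 ∨ v = m

/-- VB -/
def S_VB : Prop := ∀ m : ℤ, m < 0 → m ≠ -1 → Squarefree m →
  (∀ v : ℤ, Squarefree v → VD m v → v = 1 ∨ v = m) → Gm m

/-! ### Tamagawa numbers -/

/-- `W` has the form `(2 y + a₁ x)² = x (4 x + 9 N) (x + 4 N)` -/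
structure IsN (W : WeierstrassCurve ℤ) (N : ℤ) : Prop where
  a3 : W.a₃ = 0
  a6 : W.a₆ = 0
  b2 : W.b₂ = 25 * N
  b4 : W.b₄ = 18 * N ^ 2

/-- TAMP: `p` odd, `p ∥ N`, `p ≠ 3` (`p = 7` included): types `I₀*`, `I₂*` -/
def S_TAMP : Prop := ∀ (W : WeierstrassCurve ℤ) (N : ℤ) (p : ℕ) [Fact p.Prime], IsN W N → p ≠ 2 →
  p ≠ 3 → (p : ℤ) ∣ N → ¬ (p : ℤ) ^ 2 ∣ N → Pool.Agent.Y700.tam W p = 4

/-- TAMR3: `3 ∥ N`: type `I₄*` -/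
def S_TAMR3 : Prop := ∀ (W : WeierstrassCurve ℤ) (N : ℤ) [Fact (Nat.Prime 3)], IsN W N →
  (3 : ℤ) ∣ N → ¬ (9 : ℤ) ∣ N → Pool.Agent.Y700.tam W 3 = 4

/-- TAM3: `3 ∤ N`: type `I₄`, not split -/
def S_TAM3 : Prop := ∀ (W : WeierstrassCurve ℤ) (N : ℤ) [Fact (Nat.Prime 3)], IsN W N →
  N % 3 = 2 → Pool.Agent.Y700.tam W 3 = 2

/-- TAM7: `7 ∤ N`: type `I₂` -/
def S_TAM7 : Prop := ∀ (W : WeierstrassCurve ℤ) (N : ℤ) [Fact (Nat.Prime 7)], IsN W N →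
  ¬ (7 : ℤ) ∣ N → Pool.Agent.Y700.tam W 7 = 2

/-- TAM2: types `I₄*`, `I₈*` -/
def S_TAM2 : Prop := ∀ (m : ℤ) [Fact (Nat.Prime 2)], m % 4 = 2 ∨ m % 4 = 3 →
  Pool.Agent.Y700.tam (W2 m) 2 = 4

/-! ### torsion -/

/-- TORS -/
def S_TORS : Prop := ∀ m : ℤ, K21 m →
  Nat.card (AddCommGroup.torsion (EAB (9 * m) (16 * m)).toAffine.Point) = 4

/-! ### the minimal equation and the numbers of points -/

/-- MIN -/
def S_MIN : Prop := ∀ m : ℤ, Squarefree m → Pool.Agent.W97.MT.IsGloballyMinimal (WM m)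

/-- AP: the Frobenius traces (also at the bad primes) -/
def S_AP : Prop := ∀ m : ℤ, Squarefree m → ∀ p : ℕ, p.Prime →
  Pool.Agent.W97.MT.ap (WM m) p = Pool.Agent.W97.MT.ap Pool.Agent.N974.Gen.E21 p *
    (if p = 2 then (if m % 8 = 1 then 1 else if m % 8 = 5 then -1 else 0) else jacobiSym m p)

end Pool.Agent.H114.X21
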