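import Pool.Agent.H114.X21.Main
import Pool.Agent.H114.X21.Clg
import Pool.Agent.H114.X21.Den
import Pool.Agent.H114.X21.P.MIN
import Pool.Agent.H114.X21.P.NEC2E
import Pool.Agent.H114.X21.P.NEC2O
import Pool.Agent.H114.X21.P.NEC3
import Pool.Agent.H114.X21.P.NEC7
import Pool.Agent.H114.X21.P.NECGOOD
import Pool.Agent.H114.X21.P.NECODD
import Pool.Agent.H114.X21.P.NECR3
import Pool.Agent.H114.X21.P.NECR7
import Pool.Agent.H114.X21.P.SUF1BAD
import Pool.Agent.H114.X21.P.TAM2
import Pool.Agent.H114.X21.P.TAM3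
import Pool.Agent.H114.X21.P.TAM7
import Pool.Agent.H114.X21.P.TAMP
import Pool.Agent.H114.X21.P.TAMR3
import Pool.Agent.H114.X21.P.TORS
import Pool.Agent.H114.X21.P.US
import Pool.Agent.H114.X21.P.VB
import Pool.Agent.H114.X21.P.VF
import Pool.Agent.H114.X21.P.AP

/-!
# X21: all the parts together
-/

set_option autoImplicit false

open scoped Classical

namespace Pool.Agent.H114.X21

theorem parts : Parts where
  necinf := Pool.Agent.H215.X21.t_NECINF
  necgood := Pool.Agent.H215.X21.t_NECGOOD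
  necodd := Pool.Agent.H233.X21.t_NECODD
  nec3 := Pool.Agent.H249.X21.t_NEC3
  necr3 := Pool.Agent.H404.X21.t_NECR3
  nec7 := Pool.Agent.H726.X21.t_NEC7
  necr7 := Pool.Agent.H628.X21.t_NECR7
  nec2o := Pool.Agent.H591.X21.t_NEC2O
  nec2e := Pool.Agent.H321.X21.t_NEC2E
  suf1good := Pool.Agent.H921.X21.t_SUF1GOOD
  suf1bad := Pool.Agent.H921.X21.t_SUF1BAD
  us := Pool.Agent.H287.X21.t_US
  vf := Pool.Agent.H189.X21.VF.t_VF
  vb := Pool.Agent.H551.X21.t_VB
  tamp := Pool.Agent.H721.X21.t_TAMP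
  tamr3 := Pool.Agent.H331.X21.t_TAMR3
  tam3 := Pool.Agent.H161.X21.t_TAM3
  tam7 := Pool.Agent.H263.X21.t_TAM7
  tam2 := Pool.Agent.H218.X21TAM2.t_TAM2
  tors := Pool.Agent.H980.X21TORS.t_TORS
  min := Pool.Agent.H980.X21MIN.t_MIN
  ap := t_AP

/-- the order of a finite commutative group without elements of order two is odd -/
theorem odd_card {G : Type} [AddCommGroup G] [Finite G] (h : ∀ x : G, x + x = 0 → x = 0) :
    Odd (Nat.card G) := by
  rw [← Nat.not_even_iff_odd]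
  intro he
  haveI := Fintype.ofFinite G
  haveI : Fact (Nat.Prime 2) := ⟨Nat.prime_two⟩
  rw [Nat.card_eq_fintype_card] at he
  obtain ⟨x, hx⟩ := exists_prime_addOrderOf_dvd_card 2 he.two_dvd
  have h1 : x + x = 0 := by
    rw [← two_nsmul, ← hx]
    exact addOrderOf_nsmul_eq_zero x
  rw [h x h1, addOrderOf_zero] at hx
  norm_num at hx

end Pool.Agent.H114.X21
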