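import Pool.Graph.R_pool_sql_team_seeded_63374d34.N973.P21.DIAG
import Pool.Graph.R_pool_sql_team_seeded_63374d34.N973.P21.DIAG3
import Pool.Graph.R_pool_sql_team_seeded_63374d34.N973.P21.REL
import Pool.Graph.R_pool_sql_team_seeded_63374d34.N973.P21.CP7
import Pool.Graph.R_pool_sql_team_seeded_63374d34.N833.P21.CW
import Pool.Graph.R_pool_sql_team_seeded_63374d34.N833.P21.CB
import Pool.Graph.R_pool_sql_team_seeded_63374d34.N878.PC21.XC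
import Pool.Graph.R_pool_sql_team_seeded_63374d34.N878.PC21.PE
import Pool.Graph.R_pool_sql_team_seeded_63374d34.N878.PC21.PC3
import Pool.Graph.R_pool_sql_team_seeded_63374d34.N712.P21.HE
import Pool.Graph.R_pool_sql_team_seeded_63374d34.N402.P15.C1B
import Pool.Graph.R_pool_sql_team_seeded_63374d34.N402.P15.C1BE
import Pool.Graph.R_pool_sql_team_seeded_63374d34.N218.P21.Fin
import Pool.Graph.R_pool_sql_team_seeded_63374d34.N693.P21.R
import Pool.Graph.R_pool_sql_team_seeded_63374d34.N693.P21.R3b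
import Pool.Graph.R_pool_sql_team_seeded_63374d34.N693.P21.Fin
import Pool.Graph.R_pool_sql_team_seeded_63374d34.N693.P21.K4

/-!
# Level `21`: the diagonal identities and the parity of the Gross sums, unconditionally
-/

set_option autoImplicit false

namespace Pool.Agent.H114.X21

open Pool.Agent.N877.P21

theorem u_CP7 : S_CP7 := Pool.Agent.N973.P21.t_CP7 Pool.Agent.N878.PC21.t_PC

theorem u_CP7E : S_CP7E := Pool.Agent.N973.P21.t_CP7E Pool.Agent.N878.PC21.t_PCE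

theorem u_DIAG : S_DIAG := Pool.Agent.N973.P21.t_DIAG Pool.Agent.N402.P15.t_C1B
  Pool.Agent.N833.P21.t_C2A Pool.Agent.N833.P21.t_C2B u_CP7 Pool.Agent.N712.P21.t_HE

theorem u_DIAGE : S_DIAGE := Pool.Agent.N973.P21.t_DIAGE Pool.Agent.N402.P15.t_C1BE
  Pool.Agent.N833.P21.t_C2E u_CP7E Pool.Agent.N712.P21.t_HEE

theorem u_DIAG7 : S_DIAG7 := Pool.Agent.N973.P21.t_DIAG7 Pool.Agent.N402.P15.t_C1B
  Pool.Agent.N833.P21.t_C27A Pool.Agent.N833.P21.t_C27B Pool.Agent.N878.PC21.t_PC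
  Pool.Agent.N712.P21.t_HE7

theorem u_DIAG7E : S_DIAG7E := Pool.Agent.N973.P21.t_DIAG7E Pool.Agent.N402.P15.t_C1BE
  Pool.Agent.N833.P21.t_C27E Pool.Agent.N878.PC21.t_PCE Pool.Agent.N712.P21.t_HE7E

theorem u_DIAG21 : S_DIAG21 := Pool.Agent.N973.P21.t_DIAG21 Pool.Agent.N402.P15.t_C1B
  Pool.Agent.N833.P21.t_C23A Pool.Agent.N833.P21.t_C23B Pool.Agent.N878.PC21.t_PC3
  Pool.Agent.N712.P21.t_HE7

theorem u_DIAG21E : S_DIAG21E := Pool.Agent.N973.P21.t_DIAG21E Pool.Agent.N402.P15.t_C1BE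
  Pool.Agent.N833.P21.t_C23E Pool.Agent.N878.PC21.t_PC3E Pool.Agent.N712.P21.t_HE7E

theorem u_DIAG3 : S_DIAG3 := Pool.Agent.N973.P21.t_DIAG3 Pool.Agent.N402.P15.t_C1B
  Pool.Agent.N833.P21.t_C23A Pool.Agent.N833.P21.t_C23B Pool.Agent.N878.PC21.t_PC3
  Pool.Agent.N712.P21.t_HE

theorem u_DIAG3E : S_DIAG3E := Pool.Agent.N973.P21.t_DIAG3E Pool.Agent.N402.P15.t_C1BE
  Pool.Agent.N833.P21.t_C23E Pool.Agent.N878.PC21.t_PC3E Pool.Agent.N712.P21.t_HEE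

theorem u_PAR : S_PAR := Pool.Agent.N218.P21.t_PAR Pool.Agent.N878.PC21.t_PC
  Pool.Agent.N878.PC21.t_PC3w Pool.Agent.N973.P21.t_REL55 u_CP7 Pool.Agent.N693.P21.R.t_R
  Pool.Agent.N693.P21.t_RE Pool.Agent.N693.P21.R3.t_R3 Pool.Agent.N693.P21.K.t_R3E

theorem u_PARE : S_PARE := Pool.Agent.N218.P21.t_PARE Pool.Agent.N878.PC21.t_PC
  Pool.Agent.N878.PC21.t_PC3w Pool.Agent.N973.P21.t_REL55 u_CP7 Pool.Agent.N693.P21.R.t_R
  Pool.Agent.N693.P21.t_RE Pool.Agent.N693.P21.R3.t_R3 Pool.Agent.N693.P21.K.t_R3E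

theorem u_PARA3 : S_PARA3 := Pool.Agent.N218.P21.t_PARA3 Pool.Agent.N878.PC21.t_PC
  Pool.Agent.N878.PC21.t_PC3w Pool.Agent.N973.P21.t_REL55 u_CP7 Pool.Agent.N693.P21.R.t_R
  Pool.Agent.N693.P21.t_RE Pool.Agent.N693.P21.R3.t_R3 Pool.Agent.N693.P21.K.t_R3E

theorem u_PARA3E : S_PARA3E := Pool.Agent.N218.P21.t_PARA3E Pool.Agent.N878.PC21.t_PC
  Pool.Agent.N878.PC21.t_PC3w Pool.Agent.N973.P21.t_REL55 u_CP7 Pool.Agent.N693.P21.R.t_R
  Pool.Agent.N693.P21.t_RE Pool.Agent.N693.P21.R3.t_R3 Pool.Agent.N693.P21.K.t_R3E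

end Pool.Agent.H114.X21
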