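import Pool.Agent.H114.X21.Sgn
import Pool.Agent.H114.X21.Cst
import Pool.Graph.R_pool_sql_team_seeded_63374d34.N971.EX.Val
import Pool.Graph.R_pool_sql_team_seeded_63374d34.N971.EX.Per17
import Pool.Graph.R_pool_sql_team_seeded_63374d34.N971.EX.Gs2
import Pool.Graph.R_pool_sql_team_seeded_63374d34.N975.CHB

/-!
# The exact central values of the twists of `X_0(21)` by negative discriminants
-/

set_option autoImplicit false
set_option linter.style.haveILetI false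

open Complex Filter Topology Set UpperHalfPlane MatrixGroups CongruenceSubgroup ZMod

namespace Pool.Agent.H114.X21

open Pool.Agent.N974.Gen
open Pool.Agent.N402.MF21 (f21 eigen21 param21 tends0 tends7 tends3 hW21 hW3)
open Pool.Agent.N975.S21 (Sy cls0 lam_eq eq0 eq0E eq7 eq7E eq21 eq21E eq3 eq3E)
open Pool.Agent.N877.P21
open Pool.Agent.W97.MT (ap)
open Pool.Agent.Y700 (IsL Omega)
open Pool.Agent.N969.P15 (un Ev chE Qc Qe)
open Pool.Agent.N971.EX (omega_neg value_odd gauss_odd gJ_three gauss_chE)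

/-- the lattice of `21a1` and the scale of the odd symbol -/
theorem scale21 : ∃ (L : PeriodPair) (Op Om : ℝ) (s : ℚ → ℤ), 0 < Op ∧ 0 < Om ∧
    L.g₂ = ((193 : ℤ) : ℂ) / 12 ∧ L.g₃ = ((575 : ℤ) : ℂ) / 216 ∧
    (∀ w : ℂ, w ∈ L.lattice ↔ ∃ a b : ℤ, w = a * Op + b * Om * Complex.I) ∧
    (∀ r : ℚ, (II f21 r).im = Om / 2 * s r) ∧ Sy s ∧ s (1 / 3) = 1 := by
  obtain ⟨L, Op, Om, hOp, hOm, g2, g3, hL⟩ := Pool.Agent.N975.LatGen.lat21
  obtain ⟨s, hs, hS⟩ := Pool.Agent.N637.P21.exists_symb21L L Op Om hOp hOm g2 g3 hL eigen21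
    (param21 L g2 g3) tends0 tends7 tends3 hW21 hW3
  have H := sy_of hS
  refine ⟨L, Op, Om, s, hOp, hOm, ?_, ?_, hL, hs, H, ?_⟩
  · rw [g2]; push_cast; rfl
  · rw [g3]; push_cast; rfl
  · rcases third_unit L Op Om hOp hOm g2 g3 hL hs H with h | h
    · exact h
    · exfalso
      have h1 := im_pos38
      have h2 := lam_eq H
      rw [hs, h2, h] at h1
      push_cast at h1
      linarith

/-- **The central value in terms of the symbol.** -/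
theorem value21 {n : ℕ} [NeZero n] (hn1 : 1 < n) (W : WeierstrassCurve ℤ)
    (h4 : W.c₄ = 193 * (n : ℤ) ^ 2) (h6 : W.c₆ = -(575 * (n : ℤ) ^ 3))
    (χ : DirichletCharacter ℂ n) (hχ : χ.IsPrimitive) (hinv : χ⁻¹ = χ) (hodd : χ (-1) = -1)
    (hG : gaussSum χ (stdAddChar (N := n)) = Complex.I * ((Real.sqrt n : ℝ) : ℂ))
    (w : ℕ → ℤ) (hw : ∀ u : ℕ, χ (u : ZMod n) = (w u : ℂ))
    (hv : ∀ p : ℕ, p.Prime → w p = 0 ∨ w p = 1 ∨ w p = -1)
    (ha : ∀ p : ℕ, p.Prime → ap W p = ap E21 p * w p)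
    (hΔ : ∀ p : ℕ, p.Prime → ((p : ℤ) ∣ W.Δ ↔ p ∣ 21 ∨ w p = 0)) (c C : ℤ)
    (hK : ∀ s : ℚ → ℤ, Sy s → s (1 / 3) = 1 → c * ∑ u ∈ un n, w u * s ((u : ℚ) / n) = C) :
    0 < Omega W ∧ ∃ (f : ℂ → ℂ) (K : ℤ), IsL W f ∧ c * K = C ∧
      4 * f 1 = (K : ℂ) * ((Omega W : ℝ) : ℂ) := by
  obtain ⟨L, Op, Om, s, hOp, hOm, g2, g3, hL, hs, H, h3⟩ := scale21
  have hn0 : (0 : ℝ) < n := by exact_mod_cast (by omega : 0 < n)
  have hsn : (0 : ℝ) < √(n : ℝ) := Real.sqrt_pos.2 hn0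
  have hΩ := omega_neg L Op Om hOp hOm g2 g3 hL n (by omega) W h4 h6
  obtain ⟨f, hf, hf1⟩ := value_odd eigen21 W hn1 χ hχ hinv hodd hG w hw hv ha hΔ
  refine ⟨by rw [hΩ]; positivity, f, ∑ u ∈ un n, w u * s ((u : ℚ) / n), hf, hK s H h3, ?_⟩
  have hsum : ∑ a ∈ un n, (w a : ℝ) * (II f21 ((a : ℚ) / n)).im =
      Om / 2 * ((∑ u ∈ un n, w u * s ((u : ℚ) / n) : ℤ) : ℝ) := by
    push_cast
    rw [Finset.mul_sum]
    refine Finset.sum_congr rfl fun a _ => ?_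
    rw [hs]
    ring
  rw [hf1, hsum, hΩ]
  push_cast
  have hsc : ((√(n : ℝ) : ℝ) : ℂ) ≠ 0 := by exact_mod_cast hsn.ne'
  field_simp
  ring

section odd

variable {n : ℕ} (hs : Squarefree n) (h4 : n % 4 = 3) (W : WeierstrassCurve ℤ)
  (hc4 : W.c₄ = 193 * (n : ℤ) ^ 2) (hc6 : W.c₆ = -(575 * (n : ℤ) ^ 3))
  (ha : ∀ p : ℕ, p.Prime → ap W p = ap E21 p * jacobiSym p n)
  (hΔ : ∀ p : ℕ, p.Prime → ((p : ℤ) ∣ W.Δ ↔ p ∣ 21 ∨ p ∣ n))
include hs h4 hc4 hc6 ha hΔ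

theorem value21O (c C : ℤ) (hK : ∀ s : ℚ → ℤ, Sy s → s (1 / 3) = 1 →
      c * ∑ u ∈ un n, jacobiSym u n * s ((u : ℚ) / n) = C) :
    0 < Omega W ∧ ∃ (f : ℂ → ℂ) (K : ℤ), IsL W f ∧ c * K = C ∧
      4 * f 1 = (K : ℂ) * ((Omega W : ℝ) : ℂ) := by
  have hodd : Odd n := Nat.odd_iff.2 (by omega)
  haveI : NeZero n := ⟨by omega⟩
  set d : Pool.Agent.H491R3.J.OS := ⟨n, hodd, hs, by omega⟩ with hd
  have hchi : ∀ m : ℕ, H491R3.J.chi d (m : ZMod n) = ((jacobiSym (m : ℤ) n : ℤ) : ℂ) :=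
    H491R3.J.chi_natCast d
  have jz : ∀ p : ℕ, p.Prime → (jacobiSym (p : ℤ) n = 0 ↔ p ∣ n) := by
    intro p hp
    rw [jacobiSym.eq_zero_iff_not_coprime, Int.gcd_natCast_natCast]
    have h9 : Nat.gcd p n = 1 ↔ ¬ p ∣ n := Nat.Prime.coprime_iff_not_dvd hp
    rw [ne_eq, h9, not_not]
  refine value21 (by omega) W hc4 hc6 (H491R3.J.chi d) (H491R3.J.chi_primitive d)
    (H491R3.J.chi_inv d) ?_ ?_ (fun u => jacobiSym u n) hchi ?_ ha ?_ c C hK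
  · have h9 := H491R3.J.chi_neg_one d
    have h10 : ¬ (d.1 % 4 = 1) := by
      change ¬ (n % 4 = 1)
      omega
    rw [h9, if_neg h10]
  · rw [gauss_odd (H491R3.J.chi d) hchi, gJ_three hs h4]
  · intro p hp
    by_cases hpn : p ∣ n
    · exact Or.inl ((jz p hp).2 hpn)
    · right
      refine jacobiSym.eq_one_or_neg_one ?_
      rw [Int.gcd_natCast_natCast]
      exact (Nat.Prime.coprime_iff_not_dvd hp).2 hpn
  · intro p hp
    rw [hΔ p hp]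
    have := jz p hp
    tauto

end odd

section even

variable {n : ℕ} (hE : Ev n) (W : WeierstrassCurve ℤ)
  (hc4 : W.c₄ = 193 * (n : ℤ) ^ 2) (hc6 : W.c₆ = -(575 * (n : ℤ) ^ 3))
  (ha : ∀ p : ℕ, p.Prime → ap W p = ap E21 p * chE n p)
  (hΔ : ∀ p : ℕ, p.Prime → ((p : ℤ) ∣ W.Δ ↔ p ∣ 21 ∨ p ∣ n))
include hE hc4 hc6 ha hΔ

open Pool.Agent.N975.ChE in
theorem value21E (c C : ℤ) (hK : ∀ s : ℚ → ℤ, Sy s → s (1 / 3) = 1 →
      c * ∑ u ∈ un n, chE n u * s ((u : ℚ) / n) = C) :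
    0 < Omega W ∧ ∃ (f : ℂ → ℂ) (K : ℤ), IsL W f ∧ c * K = C ∧
      4 * f 1 = (K : ℂ) * ((Omega W : ℝ) : ℂ) := by
  have hm := ev_mod hE
  have hn0 := ev_pos hE
  haveI : NeZero n := ⟨by omega⟩
  have jz : ∀ p : ℕ, p.Prime → (chE n p = 0 ↔ p ∣ n) := by
    intro p hp
    constructor
    · intro h0
      by_contra hcon
      rcases chE_pm hm ((Nat.Prime.coprime_iff_not_dvd hp).2 hcon) with h | h <;>
        rw [h] at h0 <;> norm_num at h0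
    · intro h0
      exact chE_zero hm fun h => hp.one_lt.ne' (Nat.eq_one_of_dvd_coprimes h dvd_rfl h0)
  refine value21 (by omega) W hc4 hc6 (chi n hm) (chi_primitive hE)
    (chi_inv n hm) ?_ (gauss_chE hE (chi n hm) (chi_nat n hm)) (fun u => chE n u) (chi_nat n hm)
    ?_ ha ?_ c C hK
  · have h1 : ((n - 1 : ℕ) : ZMod n) = -1 := by
      rw [Nat.cast_sub (by omega), ZMod.natCast_self, Nat.cast_one, zero_sub]
    have h2 : chE n ((n - 1 : ℕ) : ℤ) = -1 := by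
      rw [chE_mod hm (u := ((n - 1 : ℕ) : ℤ)) (v := -1) ⟨1, by omega⟩]
      exact Pool.Agent.N975.CHB.chE_neg_one hE
    rw [← h1, chi_nat n hm, h2]
    norm_num
  · intro p hp
    by_cases hpn : p ∣ n
    · exact Or.inl ((jz p hp).2 hpn)
    · exact Or.inr (chE_pm hm ((Nat.Prime.coprime_iff_not_dvd hp).2 hpn))
  · intro p hp
    rw [hΔ p hp]
    have := jz p hp
    tauto

end even

/-! ### the arithmetic of the constants -/

/-- removing the factor three -/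
theorem three_of {y A B : ℤ} (h : 9 * A = B * y ^ 2) (hB : IsCoprime (3 : ℤ) B) :
    ∃ Y : ℤ, y = 3 * Y ∧ A = B * Y ^ 2 ∧ (Odd Y ↔ Odd y) := by
  have h3 : Prime (3 : ℤ) := Int.prime_three
  have h1 : (3 : ℤ) ∣ y := by
    have h2 : (3 : ℤ) ∣ B * y ^ 2 := ⟨3 * A, by linear_combination -h⟩
    exact h3.dvd_of_dvd_pow (hB.dvd_of_dvd_mul_left h2)
  obtain ⟨Y, rfl⟩ := h1
  refine ⟨Y, rfl, ?_, ?_⟩
  · linarith
  · rw [Int.odd_mul]
    constructor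
    · exact fun h => ⟨by decide, h⟩
    · exact fun h => h.2

theorem cop_four (k : ℕ) : IsCoprime (3 : ℤ) (4 ^ k) :=
  IsCoprime.pow_right (by norm_num : IsCoprime (3 : ℤ) 4)

section fin

variable {n : ℕ} (W : WeierstrassCurve ℤ)
  (hc4 : W.c₄ = 193 * (n : ℤ) ^ 2) (hc6 : W.c₆ = -(575 * (n : ℤ) ^ 3))
  (hΔ : ∀ p : ℕ, p.Prime → ((p : ℤ) ∣ W.Δ ↔ p ∣ 21 ∨ p ∣ n))

/-- the constant of the formula: the product of the Tamagawa numbers divided by sixteen -/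
noncomputable def cst (n : ℕ) : ℝ :=
  4 ^ n.primeFactors.card * (if 3 ∣ n then 1 else 2) * (if 7 ∣ n then 1 else 2) / 16

theorem four_sq (k : ℕ) (y : ℤ) : (2 ^ k * y) ^ 2 = 4 ^ k * y ^ 2 := by
  rw [mul_pow, ← pow_mul, mul_comm k 2, pow_mul]
  norm_num

/-- `3` inert -/
theorem fin_a {P : Prop} {c : ℤ} (h3 : ¬ 3 ∣ n) (hc : (7 ∣ n ∧ c = 72) ∨ (¬ 7 ∣ n ∧ c = 36))
    (hP : ∃ y : ℤ, cc n = 2 ^ (n.primeFactors.card + 1) * y ∧ (Odd y ↔ P))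
    (h : 0 < Omega W ∧ ∃ (f : ℂ → ℂ) (K : ℤ), IsL W f ∧ c * K = cc n ^ 2 ∧
      4 * f 1 = (K : ℂ) * ((Omega W : ℝ) : ℂ)) :
    0 < Omega W ∧ ∃ (f : ℂ → ℂ) (y : ℤ), IsL W f ∧ (Odd y ↔ P) ∧
      f 1 = (((y : ℝ) ^ 2 * cst n * Omega W : ℝ) : ℂ) := by
  obtain ⟨h1, f, K, hf, hK, hv⟩ := h
  obtain ⟨y, hy, hyP⟩ := hP
  rw [hy, four_sq, pow_succ] at hK
  rcases hc with ⟨h7, rfl⟩ | ⟨h7, rfl⟩
  · obtain ⟨Y, -, hY, hYo⟩ := three_of (y := y) (A := 2 * K) (B := 4 ^ n.primeFactors.card)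
      (by linarith) (cop_four _)
    refine ⟨h1, f, Y, hf, hYo.trans hyP, ?_⟩
    unfold cst
    rw [if_neg h3, if_pos h7]
    have hYc : (2 : ℂ) * K = 4 ^ n.primeFactors.card * (Y : ℂ) ^ 2 := by exact_mod_cast hY
    push_cast
    linear_combination hv / 4 + ((Omega W : ℝ) : ℂ) / 8 * hYc
  · obtain ⟨Y, -, hY, hYo⟩ := three_of (y := y) (A := K) (B := 4 ^ n.primeFactors.card)
      (by linarith) (cop_four _)
    refine ⟨h1, f, Y, hf, hYo.trans hyP, ?_⟩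
    unfold cst
    rw [if_neg h3, if_neg h7]
    have hYc : (K : ℂ) = 4 ^ n.primeFactors.card * (Y : ℂ) ^ 2 := by exact_mod_cast hY
    push_cast
    linear_combination hv / 4 + ((Omega W : ℝ) : ℂ) / 4 * hYc

/-- `3` ramified -/
theorem fin_b {P : Prop} {c : ℤ} (h3 : 3 ∣ n) (hc : (7 ∣ n ∧ c = 36) ∨ (¬ 7 ∣ n ∧ c = 18))
    (hP : ∃ y : ℤ, cc n = 2 ^ n.primeFactors.card * y ∧ (Odd y ↔ P))
    (h : 0 < Omega W ∧ ∃ (f : ℂ → ℂ) (K : ℤ), IsL W f ∧ c * K = cc n ^ 2 ∧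
      4 * f 1 = (K : ℂ) * ((Omega W : ℝ) : ℂ)) :
    0 < Omega W ∧ ∃ (f : ℂ → ℂ) (y : ℤ), IsL W f ∧ (Odd y ↔ P) ∧
      f 1 = (((y : ℝ) ^ 2 * cst n * Omega W : ℝ) : ℂ) := by
  obtain ⟨h1, f, K, hf, hK, hv⟩ := h
  obtain ⟨y, hy, hyP⟩ := hP
  rw [hy, four_sq] at hK
  rcases hc with ⟨h7, rfl⟩ | ⟨h7, rfl⟩
  · obtain ⟨Y, -, hY, hYo⟩ := three_of (y := y) (A := 4 * K) (B := 4 ^ n.primeFactors.card)
      (by linarith) (cop_four _)
    refine ⟨h1, f, Y, hf, hYo.trans hyP, ?_⟩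
    unfold cst
    rw [if_pos h3, if_pos h7]
    have hYc : (4 : ℂ) * K = 4 ^ n.primeFactors.card * (Y : ℂ) ^ 2 := by exact_mod_cast hY
    push_cast
    linear_combination hv / 4 + ((Omega W : ℝ) : ℂ) / 16 * hYc
  · obtain ⟨Y, -, hY, hYo⟩ := three_of (y := y) (A := 2 * K) (B := 4 ^ n.primeFactors.card)
      (by linarith) (cop_four _)
    refine ⟨h1, f, Y, hf, hYo.trans hyP, ?_⟩
    unfold cst
    rw [if_pos h3, if_neg h7]
    have hYc : (2 : ℂ) * K = 4 ^ n.primeFactors.card * (Y : ℂ) ^ 2 := by exact_mod_cast hY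
    push_cast
    linear_combination hv / 4 + ((Omega W : ℝ) : ℂ) / 8 * hYc

include hc4 hc6 hΔ

theorem fin_odd (hs : Squarefree n) (h4 : n % 4 = 3) (h3 : n % 3 ≠ 2) (h7 : 7 ∣ n ∨ Sp7 n)
    (ha : ∀ p : ℕ, p.Prime → ap W p = ap E21 p * jacobiSym p n) :
    0 < Omega W ∧ ∃ (f : ℂ → ℂ) (y : ℤ), IsL W f ∧ (Odd y ↔ Qc n) ∧
      f 1 = (((y : ℝ) ^ 2 * cst n * Omega W : ℝ) : ℂ) := by
  have n7 : Sp7 n → ¬ 7 ∣ n := by
    intro h h'
    unfold Sp7 at h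
    omega
  by_cases h30 : 3 ∣ n
  · rcases h7 with h7 | h7
    · have hn : Cl21 n := ⟨hs, h4, h7, h30⟩
      refine fin_b W h30 (Or.inl ⟨h7, rfl⟩) (u_PARA3 n (Or.inl hn))
        (value21O hs h4 W hc4 hc6 ha hΔ 36 _ fun s H h => ?_)
      have := eq21 u_DIAG21 H hn
      rw [h, one_mul] at this
      exact_mod_cast this
    · have hn : Cl3 n := ⟨hs, h4, h7, h30⟩
      refine fin_b W h30 (Or.inr ⟨n7 h7, rfl⟩) (u_PARA3 n (Or.inr hn))
        (value21O hs h4 W hc4 hc6 ha hΔ 18 _ fun s H h => ?_)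
      have := eq3 u_DIAG3 H hn
      rw [h, one_mul] at this
      exact_mod_cast this
  · have h31 : n % 3 = 1 := by omega
    rcases h7 with h7 | h7
    · have hn : Cl7 n := ⟨hs, h4, h7, h31⟩
      refine fin_a W h30 (Or.inl ⟨h7, rfl⟩) (u_PAR n (Or.inr hn))
        (value21O hs h4 W hc4 hc6 ha hΔ 72 _ fun s H h => ?_)
      have := eq7 u_DIAG7 H hn
      rw [h, one_mul] at this
      exact_mod_cast this
    · have hn : Cls0 n := ⟨hs, h4, h31, h7⟩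
      refine fin_a W h30 (Or.inr ⟨n7 h7, rfl⟩) (u_PAR n (Or.inl hn))
        (value21O hs h4 W hc4 hc6 ha hΔ 36 _ fun s H h => ?_)
      have := eq0 u_DIAG H hn
      rw [h, one_mul] at this
      exact_mod_cast this

theorem fin_even (hE : Ev n) (h3 : n % 3 ≠ 2) (h7 : 7 ∣ n ∨ Sp7 n)
    (ha : ∀ p : ℕ, p.Prime → ap W p = ap E21 p * chE n p) :
    0 < Omega W ∧ ∃ (f : ℂ → ℂ) (y : ℤ), IsL W f ∧ (Odd y ↔ Qe n) ∧
      f 1 = (((y : ℝ) ^ 2 * cst n * Omega W : ℝ) : ℂ) := by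
  have n7 : Sp7 n → ¬ 7 ∣ n := by
    intro h h'
    unfold Sp7 at h
    omega
  by_cases h30 : 3 ∣ n
  · rcases h7 with h7 | h7
    · have hn : Cl21e n := ⟨hE, h7, h30⟩
      refine fin_b W h30 (Or.inl ⟨h7, rfl⟩) (u_PARA3E n (Or.inl hn))
        (value21E hE W hc4 hc6 ha hΔ 36 _ fun s H h => ?_)
      have := eq21E u_DIAG21E H hn
      rw [h, one_mul] at this
      exact_mod_cast this
    · have hn : Cl3e n := ⟨hE, h7, h30⟩
      refine fin_b W h30 (Or.inr ⟨n7 h7, rfl⟩) (u_PARA3E n (Or.inr hn))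
        (value21E hE W hc4 hc6 ha hΔ 18 _ fun s H h => ?_)
      have := eq3E u_DIAG3E H hn
      rw [h, one_mul] at this
      exact_mod_cast this
  · have h31 : n % 3 = 1 := by omega
    rcases h7 with h7 | h7
    · have hn : Cl7e n := ⟨hE, h7, h31⟩
      refine fin_a W h30 (Or.inl ⟨h7, rfl⟩) (u_PARE n (Or.inr hn))
        (value21E hE W hc4 hc6 ha hΔ 72 _ fun s H h => ?_)
      have := eq7E u_DIAG7E H hn
      rw [h, one_mul] at this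
      exact_mod_cast this
    · have hn : Cls0e n := ⟨hE, h31, h7⟩
      refine fin_a W h30 (Or.inr ⟨n7 h7, rfl⟩) (u_PARE n (Or.inl hn))
        (value21E hE W hc4 hc6 ha hΔ 36 _ fun s H h => ?_)
      have := eq0E u_DIAGE H hn
      rw [h, one_mul] at this
      exact_mod_cast this

end fin

end Pool.Agent.H114.X21
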