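import Pool.Agent.H114.X21.Stm
import Pool.Agent.H114.X21.Val
import Pool.Agent.H743.X17.Bsd
import Pool.Agent.H743.X17.ABSF
import Pool.Agent.H743.X17.ABSB

/-!
# The 2-part of the formula of Birch and Swinnerton-Dyer for the twists `E_m` of `X_0(21)`: the assembly
-/

set_option autoImplicit false
set_option linter.all false

open scoped Classical

namespace Pool.Agent.H114.X21

open WeierstrassCurve
open Pool.Agent.Y700 (tam VR IsL Omega)
open Pool.Agent.W262.SH (Sha)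
open Pool.Agent.W97.MT (ap)
open Pool.Agent.N974.Gen (E21)
open Pool.Agent.N969.P15 (Ev chE Qc Qe)
open Pool.Agent.N877.P21 (Sp7)
open Pool.Agent.H743.X17 (EAB LS ELS TC up lam ind h2 No4 FinSha TamProd finSha_iff' vr_id card_tors
  sqf_mod4)

/-- the parts proved separately -/
structure Parts : Prop where
  necinf : S_NECINF
  necgood : S_NECGOOD
  necodd : S_NECODD
  nec3 : S_NEC3
  necr3 : S_NECR3
  nec7 : S_NEC7
  necr7 : S_NECR7
  nec2o : S_NEC2O
  nec2e : S_NEC2E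
  suf1good : S_SUF1GOOD
  suf1bad : S_SUF1BAD
  us : S_US
  vf : S_VF
  vb : S_VB
  tamp : S_TAMP
  tamr3 : S_TAMR3
  tam3 : S_TAM3
  tam7 : S_TAM7
  tam2 : S_TAM2
  tors : S_TORS
  min : S_MIN
  ap : S_AP

section cls

variable {m : ℤ}

theorem K21.ne_one (h : K21 m) : m ≠ -1 := by
  rintro rfl
  have := h.c7
  omega

theorem K21.pos3 (h : K21 m) (h3 : ¬ (3 : ℤ) ∣ m) : m % 3 = 2 := by
  have := h.c3
  omega

end cls

/-- the local conditions are necessary -/
theorem lc_of_els (h : Parts) {m u v : ℤ} (hK : K21 m) (hu : Squarefree u)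
    (hv : Squarefree v) (hE : ELS (9 * m) (16 * m) u v) : LC m u v := by
  have f2 : Fact (Nat.Prime 2) := ⟨Nat.prime_two⟩
  have f3 : Fact (Nat.Prime 3) := ⟨Nat.prime_three⟩
  have f7 : Fact (Nat.Prime 7) := ⟨by norm_num⟩
  obtain ⟨hp, hr⟩ := hE
  refine ⟨h.necinf m u v hK.neg hu.ne_zero hv.ne_zero hr, ?_, ?_, ?_, ?_, ?_, ?_⟩
  · intro p hpp h2 h7 hd
    haveI : Fact p.Prime := ⟨hpp⟩
    by_cases h3 : p = 3
    · subst h3
      exact h.nec3 m u v (hK.pos3 (by exact_mod_cast hd)) hu hv (hp 3)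
    · exact h.necgood p m u v h2 h3 h7 hd hu hv (hp p)
  · intro p hpp h2 h7 hd
    haveI : Fact p.Prime := ⟨hpp⟩
    by_cases h3 : p = 3
    · subst h3
      exact h.necr3 m u v (by exact_mod_cast hd) hK.sqf hu hv (hp 3)
    · exact h.necodd p m u v h2 h3 h7 hd hK.sqf hu hv (hp p)
  · intro hd
    exact h.nec7 m u v (by have := hK.c7; omega) hu hv (hp 7)
  · intro hd
    exact h.necr7 m u v hd hK.sqf hu hv (hp 7)
  · intro h4
    exact h.nec2o m u v h4 hu hv (hp 2)
  · intro h4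
    have := sqf_mod4 hK.sqf
    exact h.nec2e m u v (by omega) hK.sqf hu hv (hp 2)

/-- the conditions for the classes `(1, v)` are sufficient -/
theorem els_of_vd (h : Parts) {m v : ℤ} (hK : K21 m) (hv : Squarefree v) (hV : VD m v) :
    ELS (9 * m) (16 * m) 1 v := by
  constructor
  · intro p hp
    by_cases hc : p = 2 ∨ p = 3 ∨ p = 7 ∨ (p : ℤ) ∣ m
    · exact h.suf1bad p m v hK hv hV hc
    · push Not at hc
      obtain ⟨h2, h3, h7, hm⟩ := hc
      exact h.suf1good p m v h2 h3 h7 hm (hV.dvd p hp.out h2 hm)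
  · have hm := hK.neg
    have hmR : (m : ℝ) < 0 := by exact_mod_cast hm
    have hm3 : (m : ℝ) ^ 3 < 0 := Odd.pow_neg (by decide) hmR
    by_cases hv0 : 0 < v
    · have hvR : (0 : ℝ) < v := by exact_mod_cast hv0
      refine ⟨-17 * m, Real.sqrt (-17 * m * (-17 * m + 9 * m) * (-17 * m + 16 * m)), ?_, ?_, ?_, ?_⟩
      · have : 0 < -17 * (m : ℝ) * (-17 * m + 9 * m) * (-17 * m + 16 * m) := by
          have e : -17 * (m : ℝ) * (-17 * m + 9 * m) * (-17 * m + 16 * m) = -136 * m ^ 3 := by ring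
          rw [e]
          linarith
        exact (Real.sqrt_pos.2 this).ne'
      · rw [Real.sq_sqrt]
        · push_cast
          ring
        · have e : -17 * (m : ℝ) * (-17 * m + 9 * m) * (-17 * m + 16 * m) = -136 * m ^ 3 := by ring
          rw [e]
          linarith
      · refine ⟨Real.sqrt (-17 * m), ?_⟩
        rw [Real.mul_self_sqrt (by linarith)]
        push_cast
        ring
      · refine ⟨Real.sqrt ((-17 * m + ((9 * m : ℤ) : ℝ)) * v), ?_⟩
        rw [Real.mul_self_sqrt]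
        push_cast
        exact mul_nonneg (by linarith) hvR.le
    · have hv1 : v < 0 := lt_of_le_of_ne (not_lt.1 hv0) hv.ne_zero
      have hvR : (v : ℝ) < 0 := by exact_mod_cast hv1
      refine ⟨-m, Real.sqrt (-m * (-m + 9 * m) * (-m + 16 * m)), ?_, ?_, ?_, ?_⟩
      · have : 0 < -(m : ℝ) * (-m + 9 * m) * (-m + 16 * m) := by
          have e : -(m : ℝ) * (-m + 9 * m) * (-m + 16 * m) = -120 * m ^ 3 := by ring
          rw [e]
          linarith
        exact (Real.sqrt_pos.2 this).ne'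
      · rw [Real.sq_sqrt]
        · push_cast
          ring
        · have e : -(m : ℝ) * (-m + 9 * m) * (-m + 16 * m) = -120 * m ^ 3 := by ring
          rw [e]
          linarith
      · refine ⟨Real.sqrt (-m), ?_⟩
        rw [Real.mul_self_sqrt (by linarith)]
        push_cast
        ring
      · refine ⟨Real.sqrt ((-m + ((9 * m : ℤ) : ℝ)) * v), ?_⟩
        rw [Real.mul_self_sqrt]
        push_cast
        exact mul_nonneg_of_nonpos_of_nonpos (by linarith) hvR.le

/-- the conditions for `u = 1` -/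
theorem vd_of_lc {m v : ℤ} (hL : LC m 1 v) : VD m v := by
  have l1 : ∀ p : ℕ, lam p 1 = 0 := by
    intro p
    unfold lam up
    by_cases h : (p : ℤ) ∣ 1
    · have hp1 : p = 1 := by
        have := Int.eq_one_of_dvd_one (by positivity) h
        exact_mod_cast this
      subst hp1
      simp
    · rw [if_neg h, jacobiSym.one_left, if_pos rfl]
  have i1 : ∀ p : ℕ, p.Prime → ind p 1 = 0 := by
    intro p hp
    unfold ind
    rw [if_neg]
    intro h
    have := Int.eq_one_of_dvd_one (by positivity) h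
    have h1 : p = 1 := by exact_mod_cast this
    exact hp.one_lt.ne' h1
  refine ⟨?_, ?_, fun h => (hL.o2 h).2, fun h => (hL.e2 h).1⟩
  · intro p hp h2 hd
    by_cases h7 : p = 7
    · subst h7
      have h := (hL.s7 (by exact_mod_cast hd)).2
      rw [l1] at h
      intro h'
      unfold ind at h
      rw [if_pos h'] at h
      exact absurd h (by decide)
    · exact (hL.good p hp h2 h7 hd).2
  · intro p hp h2 hd
    by_cases h7 : p = 7
    · subst h7
      have h := (hL.r7 (by exact_mod_cast hd)).2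
      rw [i1 7 hp, zero_add, add_zero] at h
      exact h
    · have h := (hL.odd p hp h2 h7 hd).2
      rw [i1 p hp, zero_mul, add_zero] at h
      exact h

/-- every integer is a square times a squarefree integer -/
theorem exists_sqf {n : ℤ} (hn : n ≠ 0) : ∃ w k : ℤ, Squarefree w ∧ k ≠ 0 ∧ n = k ^ 2 * w := by
  obtain ⟨a, b, h1, h2, h3⟩ := Nat.sq_mul_squarefree_of_pos (Int.natAbs_pos.2 hn)
  rcases Int.natAbs_eq n with h | h
  · refine ⟨a, b, ?_, by omega, ?_⟩
    · exact Int.squarefree_natCast.2 (by tauto)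
    · rw [h]
      have : (n.natAbs : ℤ) = ((b ^ 2 * a : ℕ) : ℤ) := by
        exact_mod_cast (by tauto : b ^ 2 * a = n.natAbs).symm
      rw [this]; push_cast; ring
  · refine ⟨-a, b, ?_, by omega, ?_⟩
    · rw [← Int.squarefree_natAbs, Int.natAbs_neg, Int.natAbs_natCast]
      tauto
    · rw [h]
      have : (n.natAbs : ℤ) = ((b ^ 2 * a : ℕ) : ℤ) := by
        exact_mod_cast (by tauto : b ^ 2 * a = n.natAbs).symm
      rw [this]; push_cast; ring

/-- squarefree integers with the same class modulo squares are equal -/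
theorem sqf_eq {a b : ℤ} (ha : Squarefree a) (hb : Squarefree b) (h : IsSquare (a * b)) : a = b := by
  have key : ∀ a b : ℤ, Squarefree a → IsSquare (a * b) → a ∣ b := by
    rintro a b ha ⟨r, hr⟩
    have h1 : a ∣ r := by
      rw [← ha.dvd_pow_iff_dvd two_ne_zero, sq, ← hr]
      exact Dvd.intro _ rfl
    obtain ⟨k, rfl⟩ := h1
    refine ⟨k ^ 2, ?_⟩
    have h2 : a * b = a * (a * k ^ 2) := by rw [hr]; ring
    exact mul_left_cancel₀ ha.ne_zero h2
  have h1 := key a b ha h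
  have h2 := key b a hb (by rwa [mul_comm])
  have h3 := Int.natAbs_eq_of_dvd_dvd h1 h2
  rcases Int.natAbs_eq_natAbs_iff.1 h3 with h4 | h4
  · exact h4
  · exfalso
    obtain ⟨r, hr⟩ := h
    rw [h4] at hr
    have hb0 : 0 < b * b := mul_self_pos.2 hb.ne_zero
    have h5 := mul_self_nonneg r
    have h6 : -b * b = -(b * b) := by ring
    rw [h6] at hr
    omega

theorem not_sq7 {k : ℤ} (hk : k ≠ 0) : ¬ IsSquare (7 * k ^ 2) := by
  rintro ⟨r, hr⟩
  have hp : Prime (7 : ℤ) := Int.prime_iff_natAbs_prime.2 (by norm_num)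
  have h7 : Squarefree (7 : ℤ) := hp.squarefree
  obtain ⟨w, j, hw, hj, hk'⟩ := exists_sqf hk
  have h1 : IsSquare ((7 : ℤ) * 1) := by
    have h2 : k ∣ r := by
      have h3 : k ^ 2 ∣ r ^ 2 := ⟨7, by rw [sq r, ← hr]; ring⟩
      exact (Int.pow_dvd_pow_iff two_ne_zero).1 h3
    obtain ⟨t, rfl⟩ := h2
    refine ⟨t, ?_⟩
    have h4 : k ^ 2 * (7 * 1) = k ^ 2 * (t * t) := by
      rw [mul_one, mul_comm, hr]; ring
    exact mul_left_cancel₀ (pow_ne_zero 2 hk) h4
  have h2 := sqf_eq h7 squarefree_one h1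
  norm_num at h2

theorem no4 {m : ℤ} (hm : m < 0) : No4 (9 * m) (16 * m) := by
  have hm2 : 0 < m ^ 2 := pow_two_pos_of_ne_zero hm.ne
  refine ⟨?_, ?_, ?_⟩
  · rintro ⟨-, ⟨r, hr⟩⟩
    have := mul_self_nonneg r
    omega
  · rintro ⟨-, ⟨r, hr⟩⟩
    have h1 := mul_self_nonneg r
    have h2 : 9 * m * (9 * m - 16 * m) = -63 * m ^ 2 := by ring
    rw [h2] at hr
    omega
  · rintro ⟨h1, h2⟩
    have h3 := h1.mul h2
    have e : -(16 * m) * (9 * m - 16 * m) = 7 * (4 * m) ^ 2 := by ring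
    rw [e] at h3
    exact not_sq7 (by omega) h3

/-- multiplication of a class by the class of `(-A, 0)` -/
theorem els_shift {m v w k : ℤ} (hm : m ≠ 0) (hv : v ≠ 0) (hw : w ≠ 0) (h : -7 * v = k ^ 2 * w)
    (hE : ELS (9 * m) (16 * m) (-m) v) : ELS (9 * m) (16 * m) 1 w := by
  have hk : k ≠ 0 := by
    rintro rfl
    apply hv
    have : -7 * v = 0 := by rw [h]; ring
    omega
  have key : ∀ (K : Type) [Field K] [CharZero K], LS (9 * m) (16 * m) (-m) v K →
      LS (9 * m) (16 * m) 1 w K := by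
    intro K _ _ hL
    have hmK : (m : K) ≠ 0 := by exact_mod_cast hm
    have h1 := hL.shiftB (by push_cast; exact mul_ne_zero (by norm_num) hmK) (by
      push_cast
      have : (9 : K) * m - 16 * m = -7 * m := by ring
      rw [this]
      exact mul_ne_zero (by norm_num) hmK)
    refine h1.congr ?_ ?_ ?_ ?_
    · have : -(9 * m) * (-m) ≠ 0 := mul_ne_zero (by omega) (by omega)
      exact_mod_cast this
    · have : 9 * m * (9 * m - 16 * m) * v ≠ 0 :=
        mul_ne_zero (mul_ne_zero (by omega) (by omega)) hv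
      exact_mod_cast this
    · refine ⟨3 * m, ?_⟩
      push_cast
      ring
    · refine ⟨3 * m * k * w, ?_⟩
      have e : 9 * m * (9 * m - 16 * m) * v * w = (3 * m * k * w) * (3 * m * k * w) := by
        linear_combination (9 * m ^ 2 * w) * h
      exact_mod_cast e
  exact ⟨fun p hp => key _ (hE.1 p), key _ hE.2⟩

/-- **the 2-descent** -/
theorem sha_iff (h : Parts) {m : ℤ} (hK : K21 m) :
    (Finite (EAB (9 * m) (16 * m)).toAffine.Point ∧
      ∀ x : Sha (EAB (9 * m) (16 * m)), x + x = 0 → x = 0) ↔ Gm m := by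
  have hm := hK.neg
  have n4 := no4 hm
  have hA : 9 * m ≠ 0 := by omega
  have hB : 16 * m ≠ 0 := by omega
  have hAB : 9 * m ≠ 16 * m := by omega
  constructor
  · rintro ⟨h1, h2⟩
    refine h.vb m hm hK.ne_one hK.sqf fun v hv hV => ?_
    have hT := Pool.Agent.H743.X17.QABSB.t_ABSB (9 * m) (16 * m) hA hB hAB n4 h1 h2 1 v
      squarefree_one hv (els_of_vd h hK hv hV)
    rcases hT with ⟨-, h3⟩ | ⟨-, h3⟩ | ⟨h3, -⟩ | ⟨h3, -⟩
    · left
      exact sqf_eq hv squarefree_one (by rwa [mul_one])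
    · right
      refine (sqf_eq hK.sqf hv ?_).symm
      have h4 : IsSquare (3 ^ 2 * (m * v)) := by
        have e : 3 ^ 2 * (m * v) = 9 * m * v := by ring
        rwa [e]
      obtain ⟨r, hr⟩ := h4
      have h5 : (3 : ℤ) ∣ r := by
        have h6 : (3 : ℤ) ^ 2 ∣ r ^ 2 := ⟨m * v, by rw [sq r, ← hr]⟩
        exact (Int.pow_dvd_pow_iff two_ne_zero).1 h6
      obtain ⟨t, rfl⟩ := h5
      exact ⟨t, by linarith⟩
    · exfalso
      have h4 : IsSquare (3 ^ 2 * (-m * 1)) := by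
        have e : 3 ^ 2 * (-m * 1) = -(9 * m) * 1 := by ring
        rwa [e]
      obtain ⟨r, hr⟩ := h4
      have h5 : (3 : ℤ) ∣ r := by
        have h6 : (3 : ℤ) ^ 2 ∣ r ^ 2 := ⟨-m * 1, by rw [sq r, ← hr]⟩
        exact (Int.pow_dvd_pow_iff two_ne_zero).1 h6
      obtain ⟨t, rfl⟩ := h5
      have h7 := sqf_eq (a := -m) (b := 1) (by
        rw [← Int.squarefree_natAbs, Int.natAbs_neg, Int.squarefree_natAbs]
        exact hK.sqf) squarefree_one ⟨t, by linarith⟩
      exact hK.ne_one (by omega)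
    · exfalso
      have h4 : IsSquare (4 ^ 2 * (-m * 1)) := by
        have e : 4 ^ 2 * (-m * 1) = -(16 * m) * 1 := by ring
        rwa [e]
      obtain ⟨r, hr⟩ := h4
      have h5 : (4 : ℤ) ∣ r := by
        have h6 : (4 : ℤ) ^ 2 ∣ r ^ 2 := ⟨-m * 1, by rw [sq r, ← hr]⟩
        exact (Int.pow_dvd_pow_iff two_ne_zero).1 h6
      obtain ⟨t, rfl⟩ := h5
      have h7 := sqf_eq (a := -m) (b := 1) (by
        rw [← Int.squarefree_natAbs, Int.natAbs_neg, Int.squarefree_natAbs]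
        exact hK.sqf) squarefree_one ⟨t, by linarith⟩
      exact hK.ne_one (by omega)
  · intro hG
    refine Pool.Agent.H743.X17.QABSF.t_ABSF (9 * m) (16 * m) hA hB hAB n4 fun u v hu hv hE => ?_
    rcases h.us m hK hG u v hu hv (lc_of_els h hK hu hv hE) with rfl | rfl
    · rcases h.vf m hm hK.sqf hG v hv (vd_of_lc (lc_of_els h hK hu hv hE)) with rfl | rfl
      · exact Or.inl ⟨⟨1, by norm_num⟩, ⟨1, by norm_num⟩⟩
      · exact Or.inr (Or.inl ⟨⟨12 * v, by ring⟩, ⟨3 * v, by ring⟩⟩)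
    · obtain ⟨w, k, hw, hk, e⟩ := exists_sqf (n := -7 * v) (by
        have := hv.ne_zero
        omega)
      have hE' := els_shift hm.ne hv.ne_zero hw.ne_zero e hE
      rcases h.vf m hm hK.sqf hG w hw (vd_of_lc (lc_of_els h hK squarefree_one hw hE'))
        with rfl | rfl
      · refine Or.inr (Or.inr (Or.inl ⟨⟨3 * m, by ring⟩, ⟨3 * m * k, ?_⟩⟩))
        linear_combination (9 * m ^ 2) * e
      · refine Or.inr (Or.inr (Or.inr ⟨⟨4 * w, by ring⟩, ⟨w * k, ?_⟩⟩))
        linear_combination w * e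

/-! ### the minimal equation over `ℚ` -/

/-- `E_m` -/
abbrev EM (m : ℤ) : WeierstrassCurve ℚ := (WM m).map (Int.castRingHom ℚ)

theorem EM2 {m : ℤ} (h : m % 4 ≠ 1) : EM m = EAB (9 * m) (16 * m) := by
  unfold EM WM EAB
  rw [if_neg h]
  ext
  · simp [W2]
  · simp [W2]; ring
  · simp [W2]
  · simp [W2]; ring
  · simp [W2]

theorem vr1 {m : ℤ} (h : m % 4 = 1) : VR (EAB (9 * m) (16 * m)) (EM m) 2 0 1 0 := by
  have e : ((((25 * m - 1) / 4 : ℤ)) : ℚ) = (25 * m - 1) / 4 := by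
    obtain ⟨k, hk⟩ : ∃ k, 25 * m - 1 = 4 * k := ⟨(25 * m - 1) / 4, by omega⟩
    have e1 : (25 * m - 1) / 4 = k := by omega
    have e2 : (25 * m - 1 : ℚ) = 4 * k := by exact_mod_cast hk
    rw [e1]
    linear_combination (-1 / 4) * e2
  have a1 : (EM m).a₁ = 1 := by simp [EM, WM, h, W1]
  have a2 : (EM m).a₂ = (25 * m - 1) / 4 := by
    rw [← e]
    simp [EM, WM, h, W1]
  have a3 : (EM m).a₃ = 0 := by simp [EM, WM, h, W1]
  have a4 : (EM m).a₄ = 9 * (m : ℚ) ^ 2 := by simp [EM, WM, h, W1]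
  have a6 : (EM m).a₆ = 0 := by simp [EM, WM, h, W1]
  have b1 : (EAB (9 * m) (16 * m)).a₁ = 0 := rfl
  have b2 : (EAB (9 * m) (16 * m)).a₂ = 25 * m := by simp [EAB]; ring
  have b3 : (EAB (9 * m) (16 * m)).a₃ = 0 := rfl
  have b4 : (EAB (9 * m) (16 * m)).a₄ = 144 * (m : ℚ) ^ 2 := by simp [EAB]; ring
  have b6 : (EAB (9 * m) (16 * m)).a₆ = 0 := rfl
  refine ⟨two_ne_zero, ?_, ?_, ?_, ?_, ?_⟩
  · rw [a1, b1]; ring
  · rw [a2, b1, b2]; ring
  · rw [a3, b1, b3]; ring
  · rw [a4, b1, b2, b3, b4]; ring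
  · rw [a6, b1, b2, b3, b4, b6]; ring

theorem vr2 {m : ℤ} (h : m % 4 = 1) : VR (EM m) (EAB (9 * m) (16 * m)) (1 / 2) 0 (-1 / 2) 0 := by
  have v := vr1 h
  have a1 : (EM m).a₁ = 1 := by simp [EM, WM, h, W1]
  have b1 : (EAB (9 * m) (16 * m)).a₁ = 0 := rfl
  have b3 : (EAB (9 * m) (16 * m)).a₃ = 0 := rfl
  have b6 : (EAB (9 * m) (16 * m)).a₆ = 0 := rfl
  have e2 := v.e2
  have e3 := v.e3
  have e4 := v.e4
  have e6 := v.e6
  rw [b1] at e2 e3
  rw [b3] at e3
  rw [b1, b3] at e4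
  rw [b1, b3, b6] at e6
  refine ⟨by norm_num, ?_, ?_, ?_, ?_, ?_⟩
  · rw [b1, a1]; ring
  · rw [a1]; linear_combination (-1 / 4) * e2
  · rw [b3, a1]; linear_combination (-1 / 8) * e3
  · rw [a1]; linear_combination (-1 / 16) * e4 - (1 / 16) * e3
  · rw [b6, a1]; linear_combination (-1 / 64) * e6

/-! ### invariants of the minimal equation -/

/-- the discriminant of `ℚ(√m)` -/
def DD (m : ℤ) : ℤ := if m % 4 = 1 then m else 4 * m

/-- the absolute value of the discriminant of `ℚ(√m)`, `m` squarefree -/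
def Kn (m : ℤ) : ℕ := if m % 4 = 1 then m.natAbs else 4 * m.natAbs

theorem Kn_eq (m : ℤ) : Kn m = (DD m).natAbs := by
  unfold Kn DD
  split_ifs
  · rfl
  · rw [Int.natAbs_mul]; rfl

theorem isN {m : ℤ} : IsN (WM m) (DD m) := by
  unfold WM DD
  split_ifs with h
  · obtain ⟨k, hk⟩ : ∃ k, 25 * m - 1 = 4 * k := ⟨(25 * m - 1) / 4, by omega⟩
    have e : (25 * m - 1) / 4 = k := by omega
    refine ⟨rfl, rfl, ?_, ?_⟩
    · simp only [W1, WeierstrassCurve.b₂, e]
      linarith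
    · simp only [W1, WeierstrassCurve.b₄]
      ring
  · refine ⟨rfl, rfl, ?_, ?_⟩
    · simp only [W2, WeierstrassCurve.b₂]
      ring
    · simp only [W2, WeierstrassCurve.b₄]
      ring

section isN

variable {W : WeierstrassCurve ℤ} {N : ℤ}

theorem IsN.b6 (h : IsN W N) : W.b₆ = 0 := by
  simp only [WeierstrassCurve.b₆, h.a3, h.a6]
  ring

theorem IsN.a4 (h : IsN W N) : W.a₄ = 9 * N ^ 2 := by
  have h1 := h.b4
  rw [WeierstrassCurve.b₄, h.a3] at h1
  linarith

theorem IsN.c4 (h : IsN W N) : W.c₄ = 193 * N ^ 2 := by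
  rw [WeierstrassCurve.c₄, h.b2, h.b4]
  ring

theorem IsN.c6 (h : IsN W N) : W.c₆ = 575 * N ^ 3 := by
  rw [WeierstrassCurve.c₆, h.b2, h.b4, h.b6]
  ring

theorem IsN.b8 (h : IsN W N) : W.b₈ = -(81 * N ^ 4) := by
  rw [WeierstrassCurve.b₈, h.a3, h.a6, h.a4]
  ring

theorem IsN.Delta (h : IsN W N) : W.Δ = 3 ^ 4 * 7 ^ 2 * N ^ 6 := by
  rw [WeierstrassCurve.Δ, h.b2, h.b4, h.b6, h.b8]
  ring

end isN

theorem dvd_Delta {m : ℤ} {p : ℕ} (hp : p.Prime) :
    (p : ℤ) ∣ (WM m).Δ ↔ p ∣ 21 ∨ p ∣ Kn m := by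
  have hpp : Prime (p : ℤ) := Nat.prime_iff_prime_int.1 hp
  rw [isN.Delta, Kn_eq, hpp.dvd_mul, hpp.dvd_mul]
  constructor
  · rintro ((h | h) | h)
    · left
      have : p ∣ 3 := by exact_mod_cast hpp.dvd_of_dvd_pow h
      exact this.trans (by norm_num)
    · left
      have : p ∣ 7 := by exact_mod_cast hpp.dvd_of_dvd_pow h
      exact this.trans (by norm_num)
    · right; exact Int.natCast_dvd.1 (hpp.dvd_of_dvd_pow h)
  · rintro (h | h)
    · left
      have h' : p ∣ 3 * 7 := by simpa using h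
      rcases hp.dvd_mul.1 h' with h1 | h1
      · left; exact dvd_pow (by exact_mod_cast h1) (by norm_num)
      · right; exact dvd_pow (by exact_mod_cast h1) (by norm_num)
    · right; exact dvd_pow (Int.natCast_dvd.2 h) (by norm_num)

theorem c4_WM (m : ℤ) : (WM m).c₄ = 193 * ((Kn m : ℕ) : ℤ) ^ 2 := by
  rw [isN.c4, Kn_eq, Int.natAbs_sq]

theorem DD_neg {m : ℤ} (h : m < 0) : DD m = -((Kn m : ℕ) : ℤ) := by
  rw [Kn_eq]
  unfold DD
  split_ifs <;> omega

theorem c6_neg {m : ℤ} (h : m < 0) : (WM m).c₆ = -(575 * ((Kn m : ℕ) : ℤ) ^ 3) := by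
  rw [isN.c6, DD_neg h]
  ring

theorem DD_ne {m : ℤ} (hm : m ≠ 0) : DD m ≠ 0 := by unfold DD; split_ifs <;> omega

theorem delta_EM {m : ℤ} (hm : m ≠ 0) : (EM m).Δ ≠ 0 := by
  rw [WeierstrassCurve.map_Δ, isN.Delta]
  have : (3 : ℤ) ^ 4 * 7 ^ 2 * DD m ^ 6 ≠ 0 := mul_ne_zero (by norm_num) (pow_ne_zero 6 (DD_ne hm))
  rw [Ne, eq_intCast]
  exact_mod_cast this

theorem delta_EAB {m : ℤ} (hm : m ≠ 0) : (EAB (9 * m) (16 * m)).Δ ≠ 0 := by
  by_cases h : m % 4 = 1
  · exact (vr1 h).delta_ne (delta_EM hm)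
  · rw [← EM2 h]; exact delta_EM hm

theorem finSha_iff (h : Parts) {m : ℤ} (hK : K21 m) : FinSha (EM m) ↔ Gm m := by
  rw [← sha_iff h hK]
  have hm0 := hK.neg.ne
  by_cases h4 : m % 4 = 1
  · exact finSha_iff' (vr1 h4) (vr2 h4) (delta_EAB hm0) (delta_EM hm0)
  · rw [EM2 h4]
    exact finSha_iff' (vr_id _) (vr_id _) (delta_EAB hm0) (delta_EAB hm0)

theorem tors_EM (h : Parts) {m : ℤ} (hK : K21 m) :
    Nat.card (AddCommGroup.torsion (EM m).toAffine.Point) = 4 := by
  by_cases h4 : m % 4 = 1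
  · rw [card_tors ((vr1 h4).equiv (delta_EM hK.neg.ne))]
    exact h.tors m hK
  · rw [EM2 h4]
    exact h.tors m hK

/-! ### the Tamagawa numbers -/

theorem Kn_ne {m : ℤ} (hm : m ≠ 0) : Kn m ≠ 0 := by
  unfold Kn
  split_ifs <;> omega

theorem dvd3_Kn {m : ℤ} : 3 ∣ Kn m ↔ (3 : ℤ) ∣ m := by
  unfold Kn
  split_ifs <;> omega

theorem dvd7_Kn {m : ℤ} : 7 ∣ Kn m ↔ (7 : ℤ) ∣ m := by
  unfold Kn
  split_ifs <;> omega

theorem dvd_Kn {m : ℤ} {p : ℕ} (hp : p.Prime) (hp2 : p ≠ 2) (hd : p ∣ Kn m) : (p : ℤ) ∣ m := by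
  unfold Kn at hd
  split_ifs at hd
  · exact Int.natCast_dvd.2 hd
  · rcases (Nat.Prime.dvd_mul hp).1 hd with h1 | h1
    · have h2 : p ∣ 2 ^ 2 := by norm_num; exact h1
      exact absurd ((Nat.prime_dvd_prime_iff_eq hp Nat.prime_two).1 (hp.dvd_of_dvd_pow h2)) hp2
    · exact Int.natCast_dvd.2 h1

theorem nsq_DD {m : ℤ} (hm : Squarefree m) {p : ℕ} (hp : p.Prime) (hp2 : p ≠ 2) :
    ¬ (p : ℤ) ^ 2 ∣ DD m := by
  intro h2
  have h3 : (p : ℤ) ^ 2 ∣ m := by
    unfold DD at h2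
    split_ifs at h2
    · exact h2
    · have hc : IsCoprime ((p : ℤ) ^ 2) 4 := by
        have h4 : IsCoprime (p : ℤ) 2 := by
          rw [Int.isCoprime_iff_gcd_eq_one]
          exact (Nat.coprime_primes hp Nat.prime_two).2 hp2
        have h5 := (h4.pow_left (m := 2)).pow_right (n := 2)
        norm_num at h5
        exact h5
      exact hc.dvd_of_dvd_mul_left h2
  rw [sq] at h3
  have := hm _ h3
  rw [Int.isUnit_iff] at this
  have := hp.two_le
  omega

theorem tam_Kn (h : Parts) {m : ℤ} (hm : Squarefree m) {p : ℕ} (hp : p.Prime) (hd : p ∣ Kn m) :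
    (haveI := Fact.mk hp; tam (WM m) p) = 4 := by
  haveI := Fact.mk hp
  have h40 := sqf_mod4 hm
  by_cases hp2 : p = 2
  · subst hp2
    have h4 : m % 4 ≠ 1 := by
      intro h4
      have : Kn m = m.natAbs := if_pos h4
      rw [this] at hd
      omega
    have e : WM m = W2 m := if_neg h4
    rw [e]
    exact h.tam2 m (by omega)
  · have hpm := dvd_Kn hp hp2 hd
    have hN : (p : ℤ) ∣ DD m := by
      unfold DD
      split_ifs
      · exact hpm
      · exact dvd_mul_of_dvd_right hpm 4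
    have hn := nsq_DD hm hp hp2
    by_cases hp3 : p = 3
    · subst hp3
      refine h.tamr3 (WM m) (DD m) isN (by exact_mod_cast hN) ?_
      intro h9
      apply hn
      norm_num
      exact h9
    · exact h.tamp (WM m) (DD m) p isN hp2 hp3 hN hn

theorem pf_Delta {m : ℤ} (hm : m ≠ 0) :
    (WM m).Δ.natAbs.primeFactors = insert 3 (insert 7 (Kn m).primeFactors) := by
  have hD : (WM m).Δ ≠ 0 := by
    rw [isN.Delta]
    exact mul_ne_zero (by norm_num) (pow_ne_zero 6 (DD_ne hm))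
  ext p
  rw [Nat.mem_primeFactors, Finset.mem_insert, Finset.mem_insert, Nat.mem_primeFactors]
  constructor
  · rintro ⟨h1, h2, -⟩
    rcases (dvd_Delta h1).1 (Int.natCast_dvd.2 h2) with h3 | h3
    · have h' : p ∣ 3 * 7 := by simpa using h3
      rcases h1.dvd_mul.1 h' with h4 | h4
      · left
        exact (Nat.prime_dvd_prime_iff_eq h1 (by norm_num)).1 h4
      · right; left
        exact (Nat.prime_dvd_prime_iff_eq h1 (by norm_num)).1 h4
    · exact Or.inr (Or.inr ⟨h1, h3, Kn_ne hm⟩)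
  · rintro (rfl | rfl | ⟨h1, h2, -⟩)
    · exact ⟨by norm_num, Int.natCast_dvd.1 ((dvd_Delta (by norm_num)).2 (Or.inl (by norm_num))),
        Int.natAbs_ne_zero.2 hD⟩
    · exact ⟨by norm_num, Int.natCast_dvd.1 ((dvd_Delta (by norm_num)).2 (Or.inl (by norm_num))),
        Int.natAbs_ne_zero.2 hD⟩
    · exact ⟨h1, Int.natCast_dvd.1 ((dvd_Delta h1).2 (Or.inr h2)), Int.natAbs_ne_zero.2 hD⟩

theorem tamProd_eq (h : Parts) {m : ℤ} (hK : K21 m) :
    TamProd (WM m) = 4 ^ (Kn m).primeFactors.card * (if (3 : ℤ) ∣ m then 1 else 2) *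
      (if (7 : ℤ) ∣ m then 1 else 2) := by
  have hm0 := hK.neg.ne
  have hm := hK.sqf
  unfold TamProd
  rw [pf_Delta hm0]
  have key : ∏ p ∈ (Kn m).primeFactors, (if h : p.Prime then (haveI := Fact.mk h; tam (WM m) p)
      else 1) = 4 ^ (Kn m).primeFactors.card := by
    rw [Finset.prod_congr rfl (g := fun _ => 4), Finset.prod_const]
    intro p hp
    have hpp := Nat.prime_of_mem_primeFactors hp
    rw [dif_pos hpp]
    exact tam_Kn h hm hpp (Nat.dvd_of_mem_primeFactors hp)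
  have key7 : ∏ p ∈ insert 7 (Kn m).primeFactors, (if h : p.Prime then (haveI := Fact.mk h;
      tam (WM m) p) else 1) = 4 ^ (Kn m).primeFactors.card * (if (7 : ℤ) ∣ m then 1 else 2) := by
    by_cases h7 : (7 : ℤ) ∣ m
    · have hmem : 7 ∈ (Kn m).primeFactors := Nat.mem_primeFactors.2
        ⟨by norm_num, dvd7_Kn.2 h7, Kn_ne hm0⟩
      rw [Finset.insert_eq_of_mem hmem, key, if_pos h7, mul_one]
    · have hmem : 7 ∉ (Kn m).primeFactors := fun h' =>
        h7 (dvd7_Kn.1 (Nat.dvd_of_mem_primeFactors h'))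
      rw [Finset.prod_insert hmem, key, if_neg h7, mul_comm]
      congr 1
      have hp : Nat.Prime 7 := by norm_num
      rw [dif_pos hp]
      haveI := Fact.mk hp
      refine h.tam7 (WM m) (DD m) isN ?_
      unfold DD
      split_ifs
      · exact h7
      · omega
  by_cases h3 : (3 : ℤ) ∣ m
  · have hmem : 3 ∈ insert 7 (Kn m).primeFactors := Finset.mem_insert_of_mem
      (Nat.mem_primeFactors.2 ⟨by norm_num, dvd3_Kn.2 h3, Kn_ne hm0⟩)
    rw [Finset.insert_eq_of_mem hmem, key7, if_pos h3, mul_one]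
  · have hmem : 3 ∉ insert 7 (Kn m).primeFactors := fun h' => by
      rcases Finset.mem_insert.1 h' with h' | h'
      · exact absurd h' (by norm_num)
      · exact h3 (dvd3_Kn.1 (Nat.dvd_of_mem_primeFactors h'))
    rw [Finset.prod_insert hmem, key7, if_neg h3]
    have hp : Nat.Prime 3 := by norm_num
    rw [dif_pos hp]
    haveI := Fact.mk hp
    have e : tam (WM m) 3 = 2 := by
      refine h.tam3 (WM m) (DD m) isN ?_
      have h32 := hK.pos3 h3
      unfold DD
      split_ifs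
      · exact h32
      · omega
    show tam (WM m) 3 * _ = _
    rw [e]
    ring

end Pool.Agent.H114.X21
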