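import Pool.Agent.H743.X17.Defs
import Pool.Graph.R_pool_sql_team_seeded_63374d34.N969.P15.Defs2

/-!
# The quadratic twists `E_m : y² = x (x + 9 m) (x + 16 m)` of `X_0(21)`, `m < 0`: definitions

`m` is a negative squarefree integer such that `3` does not split and `7` is not inert in `ℚ(√m)`.
-/

set_option autoImplicit false

namespace Pool.Agent.H114.X21

open Pool.Agent.H743.X17 (up lam ind h2)
open Pool.Agent.N969.P15 (Qc Qe)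

/-! ### equations -/

/-- the minimal equation for `m ≡ 1 mod 4`: `y² + x y = x³ + (25 m - 1)/4 x² + 9 m² x` -/
def W1 (m : ℤ) : WeierstrassCurve ℤ := ⟨1, (25 * m - 1) / 4, 0, 9 * m ^ 2, 0⟩

/-- the minimal equation for `m ≢ 1 mod 4`: `y² = x³ + 25 m x² + 144 m² x` -/
def W2 (m : ℤ) : WeierstrassCurve ℤ := ⟨0, 25 * m, 0, 144 * m ^ 2, 0⟩

/-- the minimal equation of `E_m`, `m` squarefree -/
def WM (m : ℤ) : WeierstrassCurve ℤ := if m % 4 = 1 then W1 m else W2 m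

/-! ### the class -/

/-- `m < 0` is squarefree, `3` does not split and `7` is not inert in `ℚ(√m)` -/
structure K21 (m : ℤ) : Prop where
  neg : m < 0
  sqf : Squarefree m
  c3 : m % 3 ≠ 1
  c7 : m % 7 = 0 ∨ m % 7 = 1 ∨ m % 7 = 2 ∨ m % 7 = 4

/-! ### the local conditions -/

/-- **The local conditions** for the class `(u, v)` (`u`, `v` squarefree) on `E_m`, `m` in the
class `K21`. -/
structure LC (m u v : ℤ) : Prop where
  pos : 0 < u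
  good : ∀ p : ℕ, p.Prime → p ≠ 2 → p ≠ 7 → ¬ (p : ℤ) ∣ m → ¬ (p : ℤ) ∣ u ∧ ¬ (p : ℤ) ∣ v
  odd : ∀ p : ℕ, p.Prime → p ≠ 2 → p ≠ 7 → (p : ℤ) ∣ m →
    lam p u = ind p u * lam p (-m) ∧ lam p v = ind p v * lam p m + ind p u * lam p (-7)
  s7 : ¬ (7 : ℤ) ∣ m → ¬ (7 : ℤ) ∣ u ∧ ind 7 v = lam 7 u
  r7 : (7 : ℤ) ∣ m → lam 7 u = ind 7 u * lam 7 (-m) ∧
    lam 7 v = (ind 7 u + ind 7 v) * lam 7 m + ind 7 u
  o2 : m % 4 = 1 → ¬ (2 : ℤ) ∣ u ∧ v % 4 = 1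
  e2 : m % 4 ≠ 1 → ((up 2 v % 8 = 1 ∧ ¬ (2 : ℤ) ∣ v) ∨
    (((2 : ℤ) ∣ v ↔ (2 : ℤ) ∣ m) ∧ (up 2 v * up 2 m) % 8 = 1)) ∧ h2 u m = 0

/-- **The conditions for the class `(1, v)`**: `v` is a decomposition of the second kind (in the
sense of Rédei) of the discriminant of `ℚ(√m)` -/
structure VD (m v : ℤ) : Prop where
  dvd : ∀ p : ℕ, p.Prime → p ≠ 2 → ¬ (p : ℤ) ∣ m → ¬ (p : ℤ) ∣ v
  odd : ∀ p : ℕ, p.Prime → p ≠ 2 → (p : ℤ) ∣ m → lam p v = ind p v * lam p m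
  o2 : m % 4 = 1 → v % 4 = 1
  e2 : m % 4 ≠ 1 → ((up 2 v % 8 = 1 ∧ ¬ (2 : ℤ) ∣ v) ∨
    (((2 : ℤ) ∣ v ↔ (2 : ℤ) ∣ m) ∧ (up 2 v * up 2 m) % 8 = 1))

/-! ### the criterion -/

/-- the elementary form of: the class group of `ℚ(√m)` has no element of order four (`m < 0`
squarefree) -/
def Gm (m : ℤ) : Prop := (m % 4 = 1 → Qc m.natAbs) ∧ (m % 4 ≠ 1 → Qe (4 * m.natAbs))

end Pool.Agent.H114.X21
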