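import Pool.Agent.H114.X21.Bsd
import Pool.Agent.H114.X21.Val
import Pool.Graph.R_pool_sql_team_seeded_63374d34.N975.ChE2

/-!
# X21: the central value, `Ш` and the criterion together
-/

set_option autoImplicit false
set_option linter.all false

open scoped Classical

namespace Pool.Agent.H114.X21

open Pool.Agent.W97.MT (ap)
open Pool.Agent.Y700 (IsL Omega)
open Pool.Agent.N974.Gen (E21)
open Pool.Agent.N969.P15 (Ev chE Qc Qe)
open Pool.Agent.N877.P21 (Sp7)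
open Pool.Agent.H743.X17 (FinSha TamProd jac_two)

/-! ### the characters -/

/-- negative odd discriminants -/
theorem ch_nO {m : ℤ} (h : m < 0) (h4 : m % 4 = 1) {p : ℕ} (hp : p.Prime) :
    (if p = 2 then (if m % 8 = 1 then 1 else if m % 8 = 5 then -1 else 0) else jacobiSym m p) =
      jacobiSym p (Kn m) := by
  obtain ⟨n, hn⟩ : ∃ n : ℕ, n = Kn m := ⟨_, rfl⟩
  have hmn : m = -(n : ℤ) := by
    rw [hn, ← DD_neg h]
    unfold DD
    rw [if_pos h4]
  rw [← hn]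
  have hn4 : n % 4 = 3 := by omega
  by_cases hp2 : p = 2
  · rw [if_pos hp2, hp2]
    have := jac_two (n := n) (by omega)
    push_cast
    rw [this]
    by_cases h8 : n % 8 = 7
    · rw [if_pos (by omega), if_pos (Or.inr h8)]
    · rw [if_neg (by omega), if_pos (by omega), if_neg (by omega)]
  · rw [if_neg hp2]
    have hpo : Odd p := hp.odd_of_ne_two hp2
    rw [hmn, jacobiSym.neg _ hpo]
    rcases Nat.odd_mod_four_iff.1 (Nat.odd_iff.1 hpo) with h1 | h1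
    · rw [ZMod.χ₄_nat_one_mod_four h1, one_mul]
      exact (jacobiSym.quadratic_reciprocity_one_mod_four h1 (Nat.odd_iff.2 (by omega))).symm
    · rw [ZMod.χ₄_nat_three_mod_four h1, jacobiSym.quadratic_reciprocity_three_mod_four h1 hn4]
      ring

theorem Kn_even {m : ℤ} (h4 : m % 4 ≠ 1) : Kn m = 4 * m.natAbs := if_neg h4

theorem Kn_odd {m : ℤ} (h4 : m % 4 = 1) : Kn m = m.natAbs := if_pos h4

/-- negative even discriminants -/
theorem ev_neg {m : ℤ} (hs : Squarefree m) (h : m < 0) (h4 : m % 4 ≠ 1) : Ev (Kn m) := by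
  refine ⟨m.natAbs, Kn_even h4, Int.squarefree_natAbs.2 hs, ?_⟩
  have h5 : m % 4 ≠ 0 := by
    intro h0
    have h6 : (2 : ℤ) * 2 ∣ m := by omega
    have := hs 2 h6
    rw [Int.isUnit_iff] at this
    omega
  omega

theorem ch_nE {m : ℤ} (hs : Squarefree m) (h : m < 0) (h4 : m % 4 ≠ 1) {p : ℕ} (hp : p.Prime) :
    (if p = 2 then (if m % 8 = 1 then 1 else if m % 8 = 5 then -1 else 0) else jacobiSym m p) =
      chE (Kn m) p := by
  by_cases hp2 : p = 2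
  · rw [if_pos hp2, hp2, if_neg (by omega), if_neg (by omega)]
    unfold Pool.Agent.N969.P15.chE Pool.Agent.N969.P15.c2
    rw [if_pos (by norm_num), zero_mul]
  · rw [if_neg hp2, Pool.Agent.N975.ChE.chE_prime (ev_neg hs h h4) hp hp2, Kn_even h4]
    congr 1
    omega

/-! ### the class -/

theorem K21.n3 {m : ℤ} (hK : K21 m) : Kn m % 3 ≠ 2 := by
  have h1 := hK.neg
  have h2 := hK.c3
  unfold Kn
  split_ifs <;> omega

theorem K21.n7 {m : ℤ} (hK : K21 m) : 7 ∣ Kn m ∨ Sp7 (Kn m) := by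
  have h1 := hK.neg
  have h2 := hK.c7
  unfold Kn Sp7
  split_ifs <;> omega

/-! ### the values -/

/-- **the central value** -/
theorem lval (hAP : S_AP) {m : ℤ} (hK : K21 m) :
    0 < Omega (WM m) ∧ ∃ (f : ℂ → ℂ) (y : ℤ), IsL (WM m) f ∧ (Odd y ↔ Gm m) ∧
      f 1 = (((y : ℝ) ^ 2 * cst (Kn m) * Omega (WM m) : ℝ) : ℂ) := by
  have hs := hK.sqf
  have hneg := hK.neg
  have hap : ∀ p : ℕ, p.Prime → ap (WM m) p = ap E21 p *
    (if p = 2 then (if m % 8 = 1 then 1 else if m % 8 = 5 then -1 else 0) else jacobiSym m p) :=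
    fun p hp => hAP m hs p hp
  have hΔ : ∀ p : ℕ, p.Prime → ((p : ℤ) ∣ (WM m).Δ ↔ p ∣ 21 ∨ p ∣ Kn m) := by
    exact fun p hp => dvd_Delta hp
  have hc4 := c4_WM m
  have hc6 := c6_neg hneg
  by_cases h4 : m % 4 = 1
  · have hG : Gm m ↔ Qc (Kn m) := by
      rw [Kn_odd h4]
      exact ⟨fun h => h.1 h4, fun h => ⟨fun _ => h, fun h' => absurd h4 h'⟩⟩
    rw [hG]
    have ha : ∀ p : ℕ, p.Prime → ap (WM m) p = ap E21 p * jacobiSym p (Kn m) := by
      intro p hp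
      rw [hap p hp, ch_nO hneg h4 hp]
    exact fin_odd (WM m) hc4 (by rw [hc6]) hΔ
      (by rw [Kn_odd h4]; exact Int.squarefree_natAbs.2 hs) (by rw [Kn_odd h4]; omega) hK.n3 hK.n7 ha
  · have hG : Gm m ↔ Qe (Kn m) := by
      rw [Kn_even h4]
      exact ⟨fun h => h.2 h4, fun h => ⟨fun h' => absurd h' h4, fun _ => h⟩⟩
    rw [hG]
    have ha : ∀ p : ℕ, p.Prime → ap (WM m) p = ap E21 p * chE (Kn m) p := by
      intro p hp
      rw [hap p hp, ch_nE hs hneg h4 hp]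
    exact fin_even (WM m) hc4 (by rw [hc6]) hΔ (ev_neg hs hneg h4) hK.n3 hK.n7 ha

/-- `#E_m(ℚ)_tors² L(E_m, 1) / (Ω Tam)` is a perfect square `y²`, `y` odd iff `FinSha` iff `Gm` -/
theorem main (h : Parts) {m : ℤ} (hK : K21 m) :
    0 < Omega (WM m) ∧ ∃ (f : ℂ → ℂ) (y : ℕ), IsL (WM m) f ∧ (Odd y ↔ FinSha (EM m)) ∧
      (Odd y ↔ Gm m) ∧
      f 1 = (((y : ℝ) ^ 2 * (TamProd (WM m) : ℝ) / 16 * Omega (WM m) : ℝ) : ℂ) := by
  obtain ⟨hO, f, y, hf, hy, hv⟩ := lval h.ap hK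
  refine ⟨hO, f, y.natAbs, hf, ?_, ?_, ?_⟩
  · rw [Int.natAbs_odd, hy, finSha_iff h hK]
  · rw [Int.natAbs_odd, hy]
  · rw [hv, tamProd_eq h hK]
    have hya : ((y.natAbs : ℕ) : ℝ) ^ 2 = (y : ℝ) ^ 2 := by
      have h5 : ((y.natAbs : ℕ) : ℝ) = |(y : ℝ)| := by
        rw [Nat.cast_natAbs, Int.cast_abs]
      rw [h5, sq_abs]
    rw [hya]
    unfold cst
    congr 1
    have e3 : (if 3 ∣ Kn m then (1 : ℝ) else 2) = if (3 : ℤ) ∣ m then 1 else 2 := by
      by_cases h3 : (3 : ℤ) ∣ m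
      · rw [if_pos h3, if_pos (dvd3_Kn.2 h3)]
      · rw [if_neg h3, if_neg fun h' => h3 (dvd3_Kn.1 h')]
    have e7 : (if 7 ∣ Kn m then (1 : ℝ) else 2) = if (7 : ℤ) ∣ m then 1 else 2 := by
      by_cases h7 : (7 : ℤ) ∣ m
      · rw [if_pos h7, if_pos (dvd7_Kn.2 h7)]
      · rw [if_neg h7, if_neg fun h' => h7 (dvd7_Kn.1 h')]
    rw [e3, e7]
    push_cast
    ring

end Pool.Agent.H114.X21
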