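import Pool.Graph.R_pool_sql_team_seeded_63374d34.N402.MF21.Asm
import Pool.Graph.R_pool_sql_team_seeded_63374d34.N637.P21.SyL
import Pool.Graph.R_pool_sql_team_seeded_63374d34.N975.LatGen
import Pool.Graph.R_pool_sql_team_seeded_63374d34.N975.S21.Sum
import Pool.Graph.R_pool_sql_team_seeded_63374d34.N971.EX.Scale

/-!
# The exact scale of the odd symbol of level `21`
-/

set_option autoImplicit false
set_option linter.unusedSectionVars false

open UpperHalfPlane MatrixGroups CongruenceSubgroup Filter Topology MeasureTheory Set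

namespace Pool.Agent.H114.X21

open Pool.Agent.N402.MF21 (f21 eigen21 param21 tends0 tends7 tends3 hW21 hW3)
open Pool.Agent.N974.Gen
open Pool.Agent.N975.S21 (Sy cls0 lam_eq)
open Pool.Agent.N877.P21 (Fp)
open Pool.Agent.W97.MT (ap)
open Pool.Agent.N971.EX (scale_im)

theorem sy_of {s : ℚ → ℤ} {a : ℕ → ℤ} (h : Symb21 s a) : Sy s :=
  ⟨h.per, h.neg, h.aff, h.aff_inf⟩

/-- the cusps not equivalent to infinity -/
theorem cusp_not (L : PeriodPair) (g2 : L.g₂ = 193 / 12) (g3 : L.g₃ = 575 / 216) :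
    ∀ r : ℚ, ¬ ((21 : ℕ) : ℤ) ∣ r.den → II f21 r ∉ L.lattice := by
  have hp := param21 L g2 g3
  have hsq : Squarefree 21 := by
    rw [show (21 : ℕ) = 3 * 7 by norm_num, Nat.squarefree_mul (by norm_num)]
    exact ⟨Nat.prime_three.squarefree, (by norm_num : Nat.Prime 7).squarefree⟩
  intro r hr
  by_cases h3' : (3 : ℤ) ∣ r.den
  · by_cases h7' : (7 : ℤ) ∣ r.den
    · exfalso
      apply hr
      push_cast
      omega
    · have hg : Nat.gcd (1 / 3 : ℚ).den 21 = Nat.gcd r.den 21 :=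
        gcd21 _ _ (by norm_num [h3']) (by norm_num [h7'])
      exact (value_class hp hsq tends3 hg).1
  · by_cases h7' : (7 : ℤ) ∣ r.den
    · have hg : Nat.gcd (1 / 7 : ℚ).den 21 = Nat.gcd r.den 21 :=
        gcd21 _ _ (by norm_num [h3']) (by norm_num [h7'])
      exact (value_class hp hsq tends7 hg).1
    · have hg : Nat.gcd (0 : ℚ).den 21 = Nat.gcd r.den 21 := gcd21 _ _ (by simp [h3']) (by simp [h7'])
      exact (value_class hp hsq tends0 hg).1

/-- the imaginary parts of the periods are multiples of the one at `3 / 8` -/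
theorem im_period21 {s : ℚ → ℤ} {κ : ℝ} (hs : ∀ r : ℚ, (II f21 r).im = κ * s r) (H : Sy s)
    {a b c d : ℤ} (hdet : a * d - b * ((21 : ℤ) * c) = 1) {p : ℂ}
    (hp : ∀ z : ℂ, 0 < z.im → F f21 ((a * z + b) / (((21 : ℕ) : ℂ) * c * z + d)) = F f21 z + p) :
    ∃ m : ℤ, p.im = m * (κ * (2 * s (1 / 3))) := by
  have hd : d ≠ 0 := by
    rintro rfl
    have : (21 : ℤ) * (b * c) = -1 := by linarith
    omega
  have h0 := II_zero_im f21 eigen21.real
  have h1 := II_gamma f21 (N := 21) (by exact_mod_cast hdet) hp 0 (by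
    rw [mul_zero, zero_add]
    exact_mod_cast hd)
  have h2 : (II f21 ((b : ℚ) / d)).im = p.im := by
    have h3 := congrArg Complex.im h1
    rw [Complex.add_im, h0, zero_add] at h3
    rw [← h3]
    congr 2
    push_cast
    ring
  have h3 := cls0 H (x := b) (n := d) ⟨-c, a, by linear_combination hdet⟩
  refine ⟨Fp b d, ?_⟩
  rw [← h2, hs, h3, lam_eq H]
  push_cast
  ring

/-- the value of the symbol at `1 / 3` is a unit -/
theorem third_unit (L : PeriodPair) (Op Om : ℝ) (hOp : 0 < Op) (hOm : 0 < Om)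
    (g2 : L.g₂ = 193 / 12) (g3 : L.g₃ = 575 / 216)
    (hL : ∀ w : ℂ, w ∈ L.lattice ↔ ∃ a b : ℤ, w = a * Op + b * Om * Complex.I)
    {s : ℚ → ℤ} (hs : ∀ r : ℚ, (II f21 r).im = Om / 2 * s r) (H : Sy s) :
    s (1 / 3) = 1 ∨ s (1 / 3) = -1 := by
  have hP := param21 L g2 g3
  set v : ℂ := Om * Complex.I with hv
  have hvim : v.im = Om := by rw [hv]; simp
  refine scale_im hP (cusp_not L g2 g3) (Op := Op) (v := v) hOp.ne'
      (by rw [hvim]; exact hOm.ne') (fun w => by
        rw [hL]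
        constructor
        · rintro ⟨a, b, rfl⟩
          exact ⟨a, b, by rw [hv]; ring⟩
        · rintro ⟨a, b, rfl⟩
          exact ⟨a, b, by rw [hv]; ring⟩) (s (1 / 3)) (fun a b c d hdet p hp => by
        obtain ⟨m, hm⟩ := im_period21 hs H (by exact_mod_cast hdet) hp
        exact ⟨m, by rw [hm, hvim]; ring⟩)

end Pool.Agent.H114.X21
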