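import Pool.Agent.H114.X21.Scale
import Pool.Graph.R_pool_sql_team_seeded_63374d34.N971.EX.Sgn

/-!
# The sign of the odd symbol of level `21`
-/

set_option autoImplicit false
set_option linter.unusedSectionVars false

open UpperHalfPlane MatrixGroups CongruenceSubgroup Filter Topology MeasureTheory Set

namespace Pool.Agent.H114.X21

open Pool.Agent.N974.Gen
open Pool.Agent.N402.MF21 (f21 eigen21)
open Pool.Agent.W97.MT (ap affCount)
open Pool.Agent.N971.EX (prim_eq cf_le)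

/-- `exp (- 2 π / 21)` -/
noncomputable def rr21 : ℝ := Real.exp (-(2 * Real.pi / 21))

theorem rr_pos : 0 < rr21 := Real.exp_pos _

theorem rr_le : rr21 ≤ 0.7441 := by
  have h1 : (1.34393 : ℝ) ≤ Real.exp (2 * Real.pi / 21) := by
    have hpi := Real.pi_gt_d4
    have hx : (0.29919 : ℝ) ≤ 2 * Real.pi / 21 := by linarith
    have h4 := Real.quadratic_le_exp_of_nonneg (x := 2 * Real.pi / 21) (by positivity)
    have h5 : (0.29919 : ℝ) ^ 2 ≤ (2 * Real.pi / 21) ^ 2 := pow_le_pow_left₀ (by norm_num) hx 2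
    norm_num at h5 ⊢
    linarith
  unfold rr21
  rw [Real.exp_neg]
  rw [inv_le_comm₀ (Real.exp_pos _) (by norm_num)]
  refine le_trans ?_ h1
  norm_num

theorem rr_ge : 0.7 ≤ rr21 := by
  have hpi := Real.pi_lt_d4
  have h := Real.add_one_le_exp (-(2 * Real.pi / 21))
  unfold rr21
  linarith

theorem exp_21 (n : ℕ) (x : ℝ) : (Complex.exp (2 * Real.pi * Complex.I * n *
    (((x : ℂ) + Complex.I) / 21))).im = rr21 ^ n * Real.sin (2 * Real.pi * n * x / 21) := by
  have e : (2 * Real.pi * Complex.I * n * (((x : ℂ) + Complex.I) / 21) : ℂ) =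
      ((n * (-(2 * Real.pi / 21)) : ℝ) : ℂ) + ((2 * Real.pi * n * x / 21 : ℝ) : ℂ) * Complex.I := by
    push_cast
    linear_combination (2 * Real.pi * n / 21 : ℂ) * Complex.I_sq
  rw [e, Complex.exp_add, ← Complex.ofReal_exp, Complex.im_ofReal_mul, Complex.exp_ofReal_mul_I_im]
  congr 1
  unfold rr21
  rw [← Real.exp_nat_mul]

theorem norm_21 (n : ℕ) (x : ℝ) : ‖Complex.exp (2 * Real.pi * Complex.I * n *
    (((x : ℂ) + Complex.I) / 21))‖ = rr21 ^ n := by
  have e : (2 * Real.pi * Complex.I * n * (((x : ℂ) + Complex.I) / 21) : ℂ) =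
      ((n * (-(2 * Real.pi / 21)) : ℝ) : ℂ) + ((2 * Real.pi * n * x / 21 : ℝ) : ℂ) * Complex.I := by
    push_cast
    linear_combination (2 * Real.pi * n / 21 : ℂ) * Complex.I_sq
  rw [e, Complex.exp_add, ← Complex.ofReal_exp, norm_mul, Complex.norm_exp_ofReal_mul_I, mul_one,
    Complex.norm_real, Real.norm_eq_abs, abs_of_pos (Real.exp_pos _)]
  unfold rr21
  rw [← Real.exp_nat_mul]

/-- the imaginary part of the primitive -/
theorem F_im (x : ℝ) : HasSum (fun n : ℕ => (cf f21 n).re / n *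
    (rr21 ^ n * Real.sin (2 * Real.pi * n * x / 21)))
    (F f21 (((x : ℂ) + Complex.I) / 21)).im := by
  have hz : 0 < (((x : ℂ) + Complex.I) / 21).im := by
    have : (((x : ℂ) + Complex.I) / 21).im = 1 / 21 := by
      rw [Complex.div_im]
      simp [Complex.normSq]
    rw [this]; norm_num
  have hr0 := rr_pos
  have hr1 : rr21 < 1 := lt_of_le_of_lt rr_le (by norm_num)
  rw [← prim_eq f21 hz]
  have hs : Summable (fun n : ℕ => (qExpansion 1 f21).coeff n / n *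
      Complex.exp (2 * Real.pi * Complex.I * n * (((x : ℂ) + Complex.I) / 21))) := by
    refine Summable.of_norm_bounded (g := fun n : ℕ => 2 * rr21 ^ n)
      ((summable_geometric_of_lt_one hr0.le hr1).mul_left 2) fun n => ?_
    rcases Nat.eq_zero_or_pos n with rfl | hn
    · simp
    · rw [norm_mul, norm_21, norm_div, Complex.norm_natCast]
      have h1 : ‖(qExpansion 1 f21).coeff n‖ = |(cf f21 n).re| := by
        have h2 := cf_re eigen21 n
        conv_lhs => rw [show (qExpansion 1 f21).coeff n = cf f21 n from rfl, h2, Complex.norm_real,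
          Real.norm_eq_abs]
      have h2 := cf_le eigen21 n hn
      have hn0 : (0 : ℝ) < n := by exact_mod_cast hn
      rw [h1]
      have h3 : |(cf f21 n).re| / n ≤ 2 := by
        rw [div_le_iff₀ hn0]
        exact h2
      have h4 : (0 : ℝ) ≤ rr21 ^ n := pow_nonneg hr0.le n
      nlinarith
  have h1 := ((Complex.hasSum_iff _ _).1 hs.hasSum).2
  unfold TH940.prim
  refine h1.congr_fun ?_ |> fun h => h
  intro n
  have h2 := cf_re eigen21 n
  rw [show (qExpansion 1 f21).coeff n = cf f21 n from rfl, h2]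
  have e : (((cf f21 n).re : ℂ) / n : ℂ) = (((cf f21 n).re / n : ℝ) : ℂ) := by push_cast; rfl
  rw [e, Complex.im_ofReal_mul, exp_21]
  simp

theorem coefs : (cf f21 1).re = 1 ∧ (cf f21 2).re = -1 ∧ (cf f21 3).re = 1 ∧ (cf f21 4).re = -1 ∧
    (cf f21 5).re = -2 ∧ (cf f21 6).re = -1 ∧ (cf f21 7).re = -1 ∧ (cf f21 8).re = 3 := by
  have h1 := cf_one eigen21
  have h2 := cf_prime eigen21 2 Nat.prime_two
  have h3 := cf_prime eigen21 3 Nat.prime_three
  have h5 := cf_prime eigen21 5 (by norm_num)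
  have h7 := cf_prime eigen21 7 (by norm_num)
  have h4 := cf_pow eigen21 2 0 Nat.prime_two
  have h8 := cf_pow eigen21 2 1 Nat.prime_two
  have h6 := cf_mul eigen21 2 3 (by norm_num)
  simp only [ap21_2, ap21_3, ap21_5, ap21_7] at h2 h3 h5 h7
  have h17 : ¬ (2 ∣ 21) := by norm_num
  rw [if_neg h17, pow_zero, zero_add, pow_one, h2, h1] at h4
  rw [if_neg h17, pow_one, h2] at h8
  rw [h2, h3] at h6
  norm_num at h4 h6 h8
  rw [h4] at h8
  norm_num at h8
  refine ⟨?_, ?_, ?_, ?_, ?_, ?_, ?_, ?_⟩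
  · rw [h1]; simp
  · rw [h2]; simp
  · rw [h3]; simp
  · rw [h4]; norm_num
  · rw [h5]; simp
  · rw [h6]; simp
  · rw [h7]; simp
  · rw [h8]; simp

/-- the difference of the sines -/
noncomputable def us (n : ℕ) : ℝ :=
  Real.sin (2 * Real.pi * n * 8 / 21) - Real.sin (2 * Real.pi * n * (-8) / 21)

theorem us_eq (n : ℕ) : us n = 2 * Real.sin (2 * Real.pi * n * 8 / 21) := by
  unfold us
  have e : 2 * Real.pi * (n : ℝ) * (-8) / 21 = -(2 * Real.pi * n * 8 / 21) := by ring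
  rw [e, Real.sin_neg]
  ring

theorem us_le (n : ℕ) : |us n| ≤ 2 := by
  rw [us_eq, abs_mul, abs_of_pos (by norm_num : (0 : ℝ) < 2)]
  have h1 := Real.abs_sin_le_one (2 * Real.pi * n * 8 / 21)
  linarith

theorem us1 : 1 ≤ us 1 := by
  have hpi := Real.pi_pos
  rw [us_eq]
  have e1 : 2 * Real.pi * ((1 : ℕ) : ℝ) * 8 / 21 = Real.pi - 5 * Real.pi / 21 := by
    push_cast; ring
  rw [e1, Real.sin_pi_sub]
  have h1 : Real.sin (Real.pi / 6) ≤ Real.sin (5 * Real.pi / 21) :=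
    Real.sin_le_sin_of_le_of_le_pi_div_two (by linarith) (by linarith) (by linarith)
  rw [Real.sin_pi_div_six] at h1
  linarith

theorem us2 : us 2 ≤ -1.732 := by
  have hpi := Real.pi_pos
  rw [us_eq]
  have e1 : 2 * Real.pi * ((2 : ℕ) : ℝ) * 8 / 21 = (Real.pi - 10 * Real.pi / 21) + Real.pi := by
    push_cast; ring
  rw [e1, Real.sin_add_pi, Real.sin_pi_sub]
  have h2 : Real.sin (Real.pi / 3) ≤ Real.sin (10 * Real.pi / 21) :=
    Real.sin_le_sin_of_le_of_le_pi_div_two (by linarith) (by linarith) (by linarith)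
  rw [Real.sin_pi_div_three] at h2
  have h4 : (1.732 : ℝ) ≤ √3 := Real.le_sqrt_of_sq_le (by norm_num)
  linarith

theorem us3 : 1.414 ≤ us 3 := by
  have hpi := Real.pi_pos
  rw [us_eq]
  have e1 : 2 * Real.pi * ((3 : ℕ) : ℝ) * 8 / 21 = 2 * Real.pi / 7 + 2 * Real.pi := by
    push_cast; ring
  rw [e1, Real.sin_add_two_pi]
  have h2 : Real.sin (Real.pi / 4) ≤ Real.sin (2 * Real.pi / 7) :=
    Real.sin_le_sin_of_le_of_le_pi_div_two (by linarith) (by linarith) (by linarith)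
  rw [Real.sin_pi_div_four] at h2
  have h3 : (1.414 : ℝ) ≤ √2 := Real.le_sqrt_of_sq_le (by norm_num)
  linarith

theorem us4 : us 4 ≤ 0 := by
  have hpi := Real.pi_pos
  rw [us_eq]
  have e1 : 2 * Real.pi * ((4 : ℕ) : ℝ) * 8 / 21 = (Real.pi / 21 + Real.pi) + 2 * Real.pi := by
    push_cast; ring
  rw [e1, Real.sin_add_two_pi, Real.sin_add_pi]
  have h1 : 0 ≤ Real.sin (Real.pi / 21) := Real.sin_nonneg_of_nonneg_of_le_pi (by positivity)
    (by linarith)
  linarith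

theorem us5 : us 5 ≤ 0 := by
  have hpi := Real.pi_pos
  rw [us_eq]
  have e1 : 2 * Real.pi * ((5 : ℕ) : ℝ) * 8 / 21 =
      ((Real.pi - 4 * Real.pi / 21) + Real.pi) + 2 * Real.pi := by
    push_cast; ring
  rw [e1, Real.sin_add_two_pi, Real.sin_add_pi, Real.sin_pi_sub]
  have h1 : 0 ≤ Real.sin (4 * Real.pi / 21) := Real.sin_nonneg_of_nonneg_of_le_pi (by positivity)
    (by linarith)
  linarith

theorem us7 : us 7 ≤ 0 := by
  have hpi := Real.pi_pos
  rw [us_eq]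
  have e1 : 2 * Real.pi * ((7 : ℕ) : ℝ) * 8 / 21 =
      ((Real.pi / 3 + Real.pi) + 2 * Real.pi) + 2 * Real.pi := by
    push_cast; ring
  rw [e1, Real.sin_add_two_pi, Real.sin_add_two_pi, Real.sin_add_pi]
  have h1 : 0 ≤ Real.sin (Real.pi / 3) := Real.sin_nonneg_of_nonneg_of_le_pi (by positivity)
    (by linarith)
  linarith

theorem us8 : 0 ≤ us 8 := by
  have hpi := Real.pi_pos
  rw [us_eq]
  have e1 : 2 * Real.pi * ((8 : ℕ) : ℝ) * 8 / 21 =
      ((2 * Real.pi / 21 + 2 * Real.pi) + 2 * Real.pi) + 2 * Real.pi := by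
    push_cast; ring
  rw [e1, Real.sin_add_two_pi, Real.sin_add_two_pi, Real.sin_add_two_pi]
  have h1 : 0 ≤ Real.sin (2 * Real.pi / 21) := Real.sin_nonneg_of_nonneg_of_le_pi (by positivity)
    (by linarith)
  linarith

/-- the period between `0` and `3 / 8` is positive -/
theorem im_pos_aux : 0 < (F f21 ((((8 : ℝ) : ℂ) + Complex.I) / 21)).im -
    (F f21 ((((-8 : ℝ) : ℂ) + Complex.I) / 21)).im := by
  have hr0 := rr_pos
  have hrl := rr_le
  have hrg := rr_ge
  have hr1 : rr21 < 1 := lt_of_le_of_lt rr_le (by norm_num)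
  have h1 := (F_im 8).sub (F_im (-8))
  set S := (F f21 ((((8 : ℝ) : ℂ) + Complex.I) / 21)).im -
    (F f21 ((((-8 : ℝ) : ℂ) + Complex.I) / 21)).im with hS
  have h2 : HasSum (fun n : ℕ => (cf f21 n).re / n * (rr21 ^ n * us n)) S := by
    refine h1.congr_fun ?_ |> fun h => h
    intro n
    unfold us
    ring
  set T : ℕ → ℝ := fun n => (cf f21 n).re / n * (rr21 ^ n * us n) with hT
  have h3 := h2.summable.sum_add_tsum_nat_add 9
  rw [h2.tsum_eq] at h3
  obtain ⟨c1, c2, c3, c4, c5, c6, c7, c8⟩ := coefs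
  have hfin : rr21 + rr21 ^ 2 * 0.866 + rr21 ^ 3 * 0.4713 - rr21 ^ 6 / 3 ≤
      ∑ i ∈ Finset.range 9, T i := by
    simp only [Finset.sum_range_succ, Finset.sum_range_zero, hT, c1, c2, c3, c4, c5, c6, c7, c8]
    have p1 : rr21 * 1 ≤ rr21 * us 1 := mul_le_mul_of_nonneg_left us1 hr0.le
    have p2 : rr21 ^ 2 * 1.732 ≤ rr21 ^ 2 * (-us 2) :=
      mul_le_mul_of_nonneg_left (by linarith [us2]) (by positivity)
    have p3 : rr21 ^ 3 * 1.414 ≤ rr21 ^ 3 * us 3 :=
      mul_le_mul_of_nonneg_left us3 (by positivity)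
    have p4 : 0 ≤ rr21 ^ 4 * (-us 4) := mul_nonneg (by positivity) (by linarith [us4])
    have p5 : 0 ≤ rr21 ^ 5 * (-us 5) := mul_nonneg (by positivity) (by linarith [us5])
    have p6 : rr21 ^ 6 * us 6 ≤ rr21 ^ 6 * 2 :=
      mul_le_mul_of_nonneg_left ((le_abs_self _).trans (us_le 6)) (by positivity)
    have p7 : 0 ≤ rr21 ^ 7 * (-us 7) := mul_nonneg (by positivity) (by linarith [us7])
    have p8 : 0 ≤ rr21 ^ 8 * us 8 := mul_nonneg (by positivity) us8
    push_cast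
    have hz3 : (0 : ℝ) < rr21 ^ 3 := by positivity
    norm_num
    linarith
  have htail : |∑' i : ℕ, T (i + 9)| ≤ 4 * rr21 ^ 9 / (1 - rr21) := by
    have hg : HasSum (fun i : ℕ => 4 * rr21 ^ 9 * rr21 ^ i) (4 * rr21 ^ 9 * (1 - rr21)⁻¹) :=
      (hasSum_geometric_of_lt_one hr0.le hr1).mul_left _
    rw [div_eq_mul_inv, ← Real.norm_eq_abs]
    refine tsum_of_norm_bounded hg fun i => ?_
    rw [Real.norm_eq_abs]
    simp only [hT]
    rw [abs_mul, abs_mul, abs_div, Nat.abs_cast, abs_of_pos (pow_pos hr0 (i + 9))]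
    have hn0 : (0 : ℝ) < ((i + 9 : ℕ) : ℝ) := by positivity
    have k1 : |(cf f21 (i + 9)).re| / ((i + 9 : ℕ) : ℝ) ≤ 2 := by
      rw [div_le_iff₀ hn0]
      exact cf_le eigen21 (i + 9) (by omega)
    have k2 := us_le (i + 9)
    have k3 : 0 ≤ rr21 ^ (i + 9) := by positivity
    calc |(cf f21 (i + 9)).re| / ((i + 9 : ℕ) : ℝ) * (rr21 ^ (i + 9) * |us (i + 9)|)
        ≤ 2 * (rr21 ^ (i + 9) * 2) := by gcongr
      _ = 4 * rr21 ^ 9 * rr21 ^ i := by rw [pow_add]; ring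
  have h4 : 4 * rr21 ^ 9 / (1 - rr21) <
      rr21 + rr21 ^ 2 * 0.866 + rr21 ^ 3 * 0.4713 - rr21 ^ 6 / 3 := by
    rw [div_lt_iff₀ (by linarith)]
    have h5 : rr21 ^ 8 ≤ 0.7441 ^ 8 := pow_le_pow_left₀ hr0.le hrl 8
    have h5' : rr21 ^ 5 ≤ 0.7441 ^ 5 := pow_le_pow_left₀ hr0.le hrl 5
    have h2' : (0.7 : ℝ) ^ 2 ≤ rr21 ^ 2 := pow_le_pow_left₀ (by norm_num) hrg 2
    have h6 : (1.76 : ℝ) ≤ 1 + rr21 * 0.866 + rr21 ^ 2 * 0.4713 - rr21 ^ 5 / 3 := by
      norm_num at h5' h2' hrg ⊢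
      linarith
    have h7 : 4 * rr21 ^ 8 < 1.76 * (1 - rr21) := by
      norm_num at h5 hrl ⊢
      linarith
    have h8 : 4 * rr21 ^ 8 < (1 + rr21 * 0.866 + rr21 ^ 2 * 0.4713 - rr21 ^ 5 / 3) * (1 - rr21) :=
      h7.trans_le (mul_le_mul_of_nonneg_right h6 (by linarith))
    have h9 := mul_lt_mul_of_pos_left h8 hr0
    calc 4 * rr21 ^ 9 = rr21 * (4 * rr21 ^ 8) := by ring
      _ < _ := h9
      _ = _ := by ring
  have h5 := (abs_le.1 htail).1
  linarith

theorem im_pos38 : 0 < (II f21 (3 / 8)).im := by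
  have h0 := II_zero_im f21 eigen21.real
  have hdet : (8 : ℤ) * 8 - 3 * (((21 : ℕ) : ℤ) * 1) = 1 := by norm_num
  obtain ⟨p, hp⟩ := F_gamma f21 hdet
  have h1 := II_gamma f21 hdet hp 0 (by norm_num)
  have h2 : (II f21 (3 / 8)).im = p.im := by
    have h3 := congrArg Complex.im h1
    rw [Complex.add_im, h0, zero_add] at h3
    rw [← h3]
    congr 2
    norm_num
  rw [h2]
  have hz : 0 < ((((-8 : ℝ) : ℂ) + Complex.I) / 21).im := by
    have : ((((-8 : ℝ) : ℂ) + Complex.I) / 21).im = 1 / 21 := by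
      rw [Complex.div_im]
      simp [Complex.normSq]
    rw [this]; norm_num
  have h4 := hp _ hz
  have h5 : (((8 : ℤ) : ℂ) * ((((-8 : ℝ) : ℂ) + Complex.I) / 21) + ((3 : ℤ) : ℂ)) /
      (((21 : ℕ) : ℂ) * ((1 : ℤ) : ℂ) * ((((-8 : ℝ) : ℂ) + Complex.I) / 21) + ((8 : ℤ) : ℂ)) =
      ((((8 : ℝ) : ℂ) + Complex.I) / 21) := by
    have e : (((21 : ℕ) : ℂ) * ((1 : ℤ) : ℂ) * ((((-8 : ℝ) : ℂ) + Complex.I) / 21) + ((8 : ℤ) : ℂ)) =
        Complex.I := by
      push_cast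
      ring
    rw [e, div_eq_iff Complex.I_ne_zero]
    push_cast
    linear_combination (-1 / 21 : ℂ) * Complex.I_sq
  rw [h5] at h4
  have h6 := im_pos_aux
  rw [h4, Complex.add_im] at h6
  linarith

end Pool.Agent.H114.X21
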